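import Pool.Agent.VOAut.Defs

set_option autoImplicit false

universe u

open DirectSum

namespace Pool.Agent.VOAut

section comp

variable {M : Type*} [AddCommGroup M] [Module ℂ M] {gr : ℤ → Submodule ℂ M}

/-- Homogeneous components. -/
noncomputable def hcomp (h : DirectSum.IsInternal gr) (n : ℤ) : M →ₗ[ℂ] M :=
  (gr n).subtype ∘ₗ (DirectSum.component ℂ ℤ (fun i => gr i) n) ∘ₗ
    (LinearEquiv.ofBijective (DirectSum.coeLinearMap gr) h).symm.toLinearMap

theorem hcomp_mem (h : DirectSum.IsInternal gr) (n : ℤ) (x : M) : hcomp h n x ∈ gr n := by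
  unfold hcomp
  exact Submodule.coe_mem _

theorem hcomp_of_mem (h : DirectSum.IsInternal gr) (n m : ℤ) (x : M) (hx : x ∈ gr m) :
    hcomp h n x = if m = n then x else 0 := by
  unfold hcomp
  split_ifs with hmn
  · subst hmn
    simp only [LinearMap.comp_apply, LinearEquiv.coe_coe, Submodule.subtype_apply]
    exact congrArg Subtype.val (h.ofBijective_coeLinearMap_of_mem hx)
  · simp only [LinearMap.comp_apply, LinearEquiv.coe_coe, Submodule.subtype_apply]
    exact congrArg Subtype.val (h.ofBijective_coeLinearMap_of_mem_ne hmn hx)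

theorem mem_of_hcomp (h : DirectSum.IsInternal gr) (N : Submodule ℂ M) (x : M)
    (hx : ∀ n, hcomp h n x ∈ N) : x ∈ ⨆ n, N ⊓ gr n := by
  classical
  set e := LinearEquiv.ofBijective (DirectSum.coeLinearMap gr) h with he
  have h1 : x = DirectSum.coeLinearMap gr (e.symm x) := by
    have := e.apply_symm_apply x
    rw [he] at this
    exact this.symm
  rw [h1, DirectSum.coeLinearMap_eq_dfinsuppSum]
  refine Submodule.sum_mem _ (fun n _ => ?_)
  apply Submodule.mem_iSup_of_mem n
  exact ⟨hx n, Submodule.coe_mem _⟩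

end comp

variable {V : Type u} [AddCommGroup V] [Module ℂ V] {A : VOA V}
  {M : Type u} [AddCommGroup M] [Module ℂ M] (X : AdmissibleModule A M)

theorem AdmissibleModule.isSub_iff (N : Submodule ℂ M) :
    X.IsSub N ↔ (∀ (u : V) (n : ℤ) (x : M), x ∈ N → X.Y u n x ∈ N) ∧
      ∀ (n : ℤ) (x : M), x ∈ N → hcomp X.internal n x ∈ N := by
  unfold AdmissibleModule.IsSub
  refine and_congr_right (fun _ => ?_)
  constructor
  · intro h n x hx
    rw [h] at hx
    refine Submodule.iSup_induction (fun n => N ⊓ X.gr n)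
      (motive := fun x => hcomp X.internal n x ∈ N) hx ?_ ?_ ?_
    · intro m y hy
      rw [hcomp_of_mem X.internal n m y hy.2]
      split_ifs
      · exact hy.1
      · exact zero_mem _
    · rw [map_zero]
      exact zero_mem _
    · intro a b ha hb
      rw [map_add]
      exact add_mem ha hb
  · intro h
    apply le_antisymm
    · intro x hx
      exact mem_of_hcomp X.internal N x (fun n => h n x hx)
    · exact iSup_le (fun n => inf_le_left)

theorem AdmissibleModule.IsSub.inf {N N' : Submodule ℂ M} (h : X.IsSub N) (h' : X.IsSub N') :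
    X.IsSub (N ⊓ N') := by
  rw [X.isSub_iff] at *
  exact ⟨fun u n x hx => ⟨h.1 u n x hx.1, h'.1 u n x hx.2⟩,
    fun n x hx => ⟨h.2 n x hx.1, h'.2 n x hx.2⟩⟩

theorem AdmissibleModule.IsSub.iSup {ι : Sort*} {N : ι → Submodule ℂ M}
    (h : ∀ i, X.IsSub (N i)) : X.IsSub (⨆ i, N i) := by
  rw [X.isSub_iff]
  constructor
  · intro u n x hx
    refine Submodule.iSup_induction N (motive := fun x => X.Y u n x ∈ ⨆ i, N i) hx ?_ ?_ ?_
    · intro i y hy
      exact Submodule.mem_iSup_of_mem i ((h i).1 u n y hy)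
    · rw [map_zero]
      exact zero_mem _
    · intro a b ha hb
      rw [map_add]
      exact add_mem ha hb
  · intro n x hx
    refine Submodule.iSup_induction N
      (motive := fun x => hcomp X.internal n x ∈ ⨆ i, N i) hx ?_ ?_ ?_
    · intro i y hy
      exact Submodule.mem_iSup_of_mem i (((X.isSub_iff (N i)).1 (h i)).2 n y hy)
    · rw [map_zero]
      exact zero_mem _
    · intro a b ha hb
      rw [map_add]
      exact add_mem ha hb

theorem AdmissibleModule.IsSub.sup {N N' : Submodule ℂ M} (h : X.IsSub N) (h' : X.IsSub N') :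
    X.IsSub (N ⊔ N') := by
  rw [sup_eq_iSup]
  exact AdmissibleModule.IsSub.iSup X (fun i => by cases i <;> assumption)

/-- Complements in completely reducible admissible modules. -/
theorem AdmissibleModule.exists_compl {ι : Type*} (N : ι → Submodule ℂ M)
    (hirr : ∀ i, X.IsIrr (N i)) (htop : ⨆ i, N i = ⊤) (K : Submodule ℂ M) (hK : X.IsSub K) :
    ∃ C, X.IsSub C ∧ IsCompl K C := by
  obtain ⟨J, hJ⟩ := zorn_subset {J : Set ι | Disjoint K (⨆ i ∈ J, N i)} (by
    intro c hc hchain
    refine ⟨⋃₀ c, ?_, fun s hs => Set.subset_sUnion_of_mem hs⟩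
    show Disjoint K (⨆ i ∈ ⋃₀ c, N i)
    rw [iSup_sUnion]
    have e : (⨆ s ∈ c, ⨆ x ∈ s, N x) = ⨆ s : c, ⨆ x ∈ s.1, N x := by
      rw [iSup_subtype]
    rw [e, Directed.disjoint_iSup_right]
    · intro s
      exact hc s.2
    · intro s t
      rcases hchain.total s.2 t.2 with h | h
      · exact ⟨t, biSup_mono (fun i hi => h hi), le_rfl⟩
      · exact ⟨s, le_rfl, biSup_mono (fun i hi => h hi)⟩)
  have hd : Disjoint K (⨆ i ∈ J, N i) := hJ.prop
  have hC : X.IsSub (⨆ i ∈ J, N i) :=
    AdmissibleModule.IsSub.iSup X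
      (fun i => AdmissibleModule.IsSub.iSup X (fun _ => (hirr i).1))
  refine ⟨⨆ i ∈ J, N i, hC, hd, ?_⟩
  rw [codisjoint_iff, eq_top_iff, ← htop]
  apply iSup_le
  intro i
  by_contra hi
  have h1 : X.IsSub (N i ⊓ (K ⊔ ⨆ i ∈ J, N i)) :=
    AdmissibleModule.IsSub.inf X (hirr i).1 (AdmissibleModule.IsSub.sup X hK hC)
  rcases (hirr i).2.2 _ inf_le_left h1 with h2 | h2
  · have h3 : Disjoint K ((⨆ i ∈ J, N i) ⊔ N i) := by
      apply Disjoint.disjoint_sup_right_of_disjoint_sup_left hd
      rw [disjoint_iff, inf_comm]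
      exact h2
    have h4 : insert i J ∈ {J : Set ι | Disjoint K (⨆ i ∈ J, N i)} := by
      show Disjoint K (⨆ j ∈ insert i J, N j)
      rw [iSup_insert, sup_comm]
      exact h3
    have h5 := hJ.le_of_ge h4 (Set.subset_insert i J)
    have h6 : i ∈ J := h5 (Set.mem_insert i J)
    exact hi ((le_biSup N h6).trans le_sup_right)
  · exact hi (by rw [← h2]; exact inf_le_right)

end Pool.Agent.VOAut
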