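import Pool.Agent.VOAut.Ext
import Pool.Agent.VOAut.Split

set_option autoImplicit false

universe u

open Filter Finset

namespace Pool.Agent.VOAut

variable {V : Type u} [AddCommGroup V] [Module ℂ V] (A : VOA V)

theorem choose_neg_one (i : ℕ) : Ring.choose (-1 : ℤ) i = (-1) ^ i := by
  have := choose_neg_nat 1 i one_ne_zero
  simpa using this

theorem VOA.om_mem : A.om ∈ A.gr 2 := by
  rw [A.mem_gr]
  have h := A.virasoro 0 (-2) A.vac
  have e1 : (0 : ℤ) + 1 = 1 := rfl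
  have e2 : (-2 : ℤ) + 1 = -1 := rfl
  have e3 : (0 : ℤ) + (-2) + 1 = -1 := rfl
  rw [e1, e2, e3, A.creation_neg_one, A.creation A.om 1 (by norm_num)] at h
  rw [if_neg (by norm_num)] at h
  simpa using h

theorem VOA.vac_mem : A.vac ∈ A.gr 0 := by
  rw [A.mem_gr, A.creation A.om 1 (by norm_num)]
  simp

/-- Negative modes on the vacuum are divided powers of `L(-1)`. -/
theorem VOA.create (x : V) (j : ℕ) :
    (j.factorial : ℂ) • A.Y x (-(j : ℤ) - 1) A.vac = ((A.Y A.om 0) ^ j) x := by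
  induction j generalizing x with
  | zero =>
    have e : -((0 : ℕ) : ℤ) - 1 = -1 := by norm_num
    rw [e, A.creation_neg_one]
    simp
  | succ j ih =>
    rw [pow_succ, Module.End.mul_apply, ← ih, A.translation]
    have e : -(j : ℤ) - 1 - 1 = -((j + 1 : ℕ) : ℤ) - 1 := by push_cast; ring
    rw [e, LinearMap.smul_apply, smul_smul]
    congr 1
    rw [Nat.factorial_succ]
    push_cast
    ring

theorem VOA.pow_graded (j : ℕ) : ∀ (n : ℤ) (x : V), x ∈ A.gr n →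
    ((A.Y A.om 0) ^ j) x ∈ A.gr (n + j) := by
  induction j with
  | zero =>
    intro n x hx
    simpa using hx
  | succ j ih =>
    intro n x hx
    rw [pow_succ', Module.End.mul_apply]
    have := A.graded 2 0 (n + j) A.om _ A.om_mem (ih n x hx)
    have e : n + (j : ℤ) + 2 - 0 - 1 = n + ((j + 1 : ℕ) : ℤ) := by push_cast; ring
    rwa [e] at this

/-- The image of `V_0` under `L(-1)`. -/
noncomputable def VOA.DV0 : Submodule ℂ V := (A.gr 0).map (A.Y A.om 0)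

theorem VOA.mem_DV0 (i : ℕ) (hi : 1 ≤ i) (x : V) (hx : x ∈ A.gr (1 - i)) :
    A.Y x (-(i : ℤ) - 1) A.vac ∈ A.DV0 := by
  obtain ⟨i, rfl⟩ : ∃ i', i = i' + 1 := ⟨i - 1, by omega⟩
  have h1 := A.create x (i + 1)
  have h2 : A.Y x (-((i + 1 : ℕ) : ℤ) - 1) A.vac =
      (((i + 1).factorial : ℂ))⁻¹ • ((A.Y A.om 0) ^ (i + 1)) x := by
    rw [← h1, smul_smul, inv_mul_cancel₀, one_smul]
    exact_mod_cast (i + 1).factorial_ne_zero
  rw [h2]
  apply Submodule.smul_mem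
  rw [pow_succ', Module.End.mul_apply]
  refine Submodule.mem_map_of_mem ?_
  have h3 := A.pow_graded i _ x hx
  have e : 1 - ((i + 1 : ℕ) : ℤ) + i = 0 := by push_cast; ring
  rwa [e] at h3

theorem VOA.mem_DDV0 (i : ℕ) (hi : 2 ≤ i) (x : V) (hx : x ∈ A.gr (2 - i)) :
    A.Y x (-(i : ℤ) - 1) A.vac ∈ A.DV0.map (A.Y A.om 0) := by
  obtain ⟨i, rfl⟩ : ∃ i', i = i' + 2 := ⟨i - 2, by omega⟩
  have h1 := A.create x (i + 2)
  have h2 : A.Y x (-((i + 2 : ℕ) : ℤ) - 1) A.vac =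
      (((i + 2).factorial : ℂ))⁻¹ • ((A.Y A.om 0) ^ (i + 2)) x := by
    rw [← h1, smul_smul, inv_mul_cancel₀, one_smul]
    exact_mod_cast (i + 2).factorial_ne_zero
  rw [h2]
  apply Submodule.smul_mem
  rw [pow_succ', Module.End.mul_apply, pow_succ', Module.End.mul_apply]
  refine Submodule.mem_map_of_mem (Submodule.mem_map_of_mem ?_)
  have h3 := A.pow_graded i _ x hx
  have e : 2 - ((i + 2 : ℕ) : ℤ) + i = 0 := by push_cast; ring
  rwa [e] at h3

theorem VOA.modes_om (v : V) (k : ℕ) : ∃ K : ℕ, 2 ≤ K ∧ A.Y v k A.om =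
    -∑ i ∈ range K, ((-1 : ℂ) ^ i) • A.Y (A.Y A.om i v) (-1 + k - i) A.vac := by
  obtain ⟨K, h1, hK⟩ := ((A.comm_ev A.om v A.vac (-1) k).and (eventually_ge_atTop 2)).exists
  refine ⟨K, hK, ?_⟩
  rw [A.creation v k (by positivity), A.creation_neg_one, map_zero, zero_sub] at h1
  rw [← neg_eq_iff_eq_neg, h1]
  refine Finset.sum_congr rfl (fun i _ => ?_)
  rw [choose_neg_one]
  push_cast
  rfl

theorem VOA.om_graded (v : V) (hv : v ∈ A.gr 1) (i : ℕ) : A.Y A.om i v ∈ A.gr (2 - i) := by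
  have := A.graded 2 i 1 A.om v A.om_mem hv
  have e : (1 : ℤ) + 2 - i - 1 = 2 - i := by ring
  rwa [e] at this

theorem VOA.mode_one (v : V) (hv : v ∈ A.gr 1) : A.Y v 1 A.om - v ∈ A.DV0 := by
  obtain ⟨K, hK, h⟩ := A.modes_om v 1
  obtain ⟨K, rfl⟩ := Nat.exists_eq_add_of_le hK
  have e0 : A.Y v ((1 : ℕ) : ℤ) A.om = A.Y v 1 A.om := rfl
  rw [e0, Finset.sum_range_add, Finset.sum_range_succ, Finset.sum_range_succ,
    Finset.sum_range_zero] at h
  have e1 : (-1 : ℤ) + ((1 : ℕ) : ℤ) - ((0 : ℕ) : ℤ) = 0 := by norm_num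
  have e2 : (-1 : ℤ) + ((1 : ℕ) : ℤ) - ((1 : ℕ) : ℤ) = -1 := by norm_num
  have e3 : A.Y A.om ((1 : ℕ) : ℤ) v = v := by
    have := (A.mem_gr 1 v).1 hv
    simpa using this
  rw [e1, e2, e3, A.creation _ 0 le_rfl, A.creation_neg_one] at h
  have h2 : A.Y v 1 A.om - v = -∑ i ∈ range K, ((-1 : ℂ) ^ (2 + i)) •
      A.Y (A.Y A.om ((2 + i : ℕ) : ℤ) v) (-1 + ((1 : ℕ) : ℤ) - ((2 + i : ℕ) : ℤ)) A.vac := by
    rw [h]
    simp only [smul_zero, zero_add, pow_one, neg_smul, one_smul]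
    abel
  rw [h2]
  apply Submodule.neg_mem
  refine Submodule.sum_mem _ (fun i _ => Submodule.smul_mem _ _ ?_)
  have h3 := A.om_graded v hv (2 + i)
  have h4 := A.mem_DV0 (1 + i) (by omega) (A.Y A.om ((2 + i : ℕ) : ℤ) v) (by
    have e : (1 : ℤ) - ((1 + i : ℕ) : ℤ) = 2 - ((2 + i : ℕ) : ℤ) := by push_cast; ring
    rw [e]
    exact h3)
  have e : -((1 + i : ℕ) : ℤ) - 1 = -1 + ((1 : ℕ) : ℤ) - ((2 + i : ℕ) : ℤ) := by push_cast; ring
  rwa [e] at h4

theorem VOA.mode_zero (v : V) (hv : v ∈ A.gr 1) :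
    A.Y v 0 A.om ∈ A.DV0.map (A.Y A.om 0) := by
  obtain ⟨K, hK, h⟩ := A.modes_om v 0
  obtain ⟨K, rfl⟩ := Nat.exists_eq_add_of_le hK
  have e0 : A.Y v ((0 : ℕ) : ℤ) A.om = A.Y v 0 A.om := rfl
  rw [e0, Finset.sum_range_add, Finset.sum_range_succ, Finset.sum_range_succ,
    Finset.sum_range_zero] at h
  have e1 : (-1 : ℤ) + ((0 : ℕ) : ℤ) - ((0 : ℕ) : ℤ) = -1 := by norm_num
  have e2 : (-1 : ℤ) + ((0 : ℕ) : ℤ) - ((1 : ℕ) : ℤ) = -2 := by norm_num
  have e3 : A.Y A.om ((1 : ℕ) : ℤ) v = v := by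
    have := (A.mem_gr 1 v).1 hv
    simpa using this
  have e4 : A.Y A.om ((0 : ℕ) : ℤ) v = A.Y A.om 0 v := rfl
  have e5 : A.Y v (-2) A.vac = A.Y A.om 0 v := by
    have := A.create v 1
    have e : -((1 : ℕ) : ℤ) - 1 = -2 := by norm_num
    rw [e] at this
    simpa using this
  rw [e1, e2, e3, e4, A.creation_neg_one, e5] at h
  have h2 : A.Y v 0 A.om = -∑ i ∈ range K, ((-1 : ℂ) ^ (2 + i)) •
      A.Y (A.Y A.om ((2 + i : ℕ) : ℤ) v) (-1 + ((0 : ℕ) : ℤ) - ((2 + i : ℕ) : ℤ)) A.vac := by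
    rw [h]
    simp only [zero_add, pow_one, neg_smul, one_smul, pow_zero]
    abel
  rw [h2]
  apply Submodule.neg_mem
  refine Submodule.sum_mem _ (fun i _ => Submodule.smul_mem _ _ ?_)
  have h3 := A.om_graded v hv (2 + i)
  have h4 := A.mem_DDV0 (2 + i) (by omega) (A.Y A.om ((2 + i : ℕ) : ℤ) v) h3
  have e : -((2 + i : ℕ) : ℤ) - 1 = -1 + ((0 : ℕ) : ℤ) - ((2 + i : ℕ) : ℤ) := by push_cast; ring
  rwa [e] at h4

theorem VOA.F_om (v : V) (hv : v ∈ A.gr 1) : A.F v A.om 0 A.vac - v ∈ A.DV0 := by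
  obtain ⟨N, hN⟩ := A.trunc_zero v A.om
  rw [A.F_eq v A.om (2 + N) (fun k hk => hN k (by omega)), Finset.sum_range_add,
    Finset.sum_range_succ, Finset.sum_range_succ, Finset.sum_range_zero, cc_zero]
  have e1 : (0 : ℤ) - ((1 : ℕ) : ℤ) = -1 := by norm_num
  have e2 : cc 1 = 1 := by simp [cc]
  have e0 : A.Y v ((1 : ℕ) : ℤ) A.om = A.Y v 1 A.om := rfl
  rw [e1, A.creation_neg_one, e2, one_smul, zero_smul, zero_add, zero_add, e0]
  have e3 : ∀ s : V, A.Y v 1 A.om + s - v = (A.Y v 1 A.om - v) + s := by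
    intro s
    abel
  rw [e3]
  apply Submodule.add_mem _ (A.mode_one v hv)
  refine Submodule.sum_mem _ (fun i _ => Submodule.smul_mem _ _ ?_)
  have h3 : A.Y v ((2 + i : ℕ) : ℤ) A.om ∈ A.gr (1 - ((1 + i : ℕ) : ℤ)) := by
    have := A.graded 1 ((2 + i : ℕ) : ℤ) 2 v A.om hv A.om_mem
    have e : (2 : ℤ) + 1 - ((2 + i : ℕ) : ℤ) - 1 = 1 - ((1 + i : ℕ) : ℤ) := by push_cast; ring
    rwa [e] at this
  have h4 := A.mem_DV0 (1 + i) (by omega) _ h3
  have e : -((1 + i : ℕ) : ℤ) - 1 = 0 - ((2 + i : ℕ) : ℤ) := by push_cast; ring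
  rwa [e] at h4

/-- In a rational vertex operator algebra a vector of weight one with vanishing zero mode
lies in `L(-1) V_0`. -/
theorem VOA.faithful (hrat : A.Rational) (v : V) (hv : v ∈ A.gr 1)
    (hv0 : ∀ w, A.Y v 0 w = 0) : v ∈ A.DV0 := by
  obtain ⟨B, hneg⟩ := A.bounded
  set X := A.ext v hv hv0 B hneg with hX
  obtain ⟨ι, N, hirr, -, htop⟩ := hrat (V × V) X
  have hXY : ∀ (u : V) (n : ℤ) (p : V × V),
      X.Y u n p = (A.Y u n p.1, A.Y u n p.2 + A.F v u n p.1) := fun u n p => rfl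
  have hXgr : ∀ n : ℤ, X.gr n = (A.gr (n + B)).prod (A.gr (n + B)) := fun n => rfl
  have hK : X.IsSub (Submodule.prod ⊥ ⊤) := by
    rw [X.isSub_iff]
    constructor
    · rintro u n ⟨x, y⟩ ⟨hx, -⟩
      have hx' : x = 0 := hx
      subst hx'
      refine ⟨?_, trivial⟩
      rw [hXY]
      simp
    · rintro n ⟨x, y⟩ ⟨hx, -⟩
      have hx' : x = 0 := hx
      subst hx'
      have hy : y ∈ ⨆ n, A.gr n := by rw [A.iSup_gr]; trivial
      refine Submodule.iSup_induction A.gr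
        (motive := fun y => hcomp X.internal n (0, y) ∈ Submodule.prod ⊥ ⊤) hy ?_ ?_ ?_
      · intro m y hy
        have hm : ((0, y) : V × V) ∈ X.gr (m - B) := by
          rw [hXgr, sub_add_cancel]
          exact ⟨zero_mem _, hy⟩
        rw [hcomp_of_mem X.internal n (m - B) _ hm]
        split_ifs
        · exact ⟨zero_mem _, trivial⟩
        · exact zero_mem _
      · have : ((0, 0) : V × V) = 0 := rfl
        rw [this, map_zero]
        exact zero_mem _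
      · intro a b ha hb
        have : ((0, a + b) : V × V) = (0, a) + (0, b) := by simp
        rw [this, map_add]
        exact add_mem ha hb
  obtain ⟨C, hC, hcompl⟩ := X.exists_compl N hirr htop _ hK
  have h1 : ((A.vac, 0) : V × V) ∈ (Submodule.prod ⊥ ⊤ : Submodule ℂ (V × V)) ⊔ C := by
    rw [hcompl.sup_eq_top]
    trivial
  rw [Submodule.mem_sup] at h1
  obtain ⟨⟨a, y⟩, ⟨ha, -⟩, c, hc, hac⟩ := h1
  have ha' : a = 0 := ha
  subst ha'
  have hc2 : c = (A.vac, -y) := by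
    have : c = ((A.vac, 0) : V × V) - (0, y) := by rw [← hac]; simp
    rw [this]
    simp
  subst hc2
  -- the part of the degree of the vacuum
  have h2 : hcomp X.internal (-B) (A.vac, -y) ∈ C := ((X.isSub_iff C).1 hC).2 (-B) _ hc
  have h3 : ∃ z ∈ A.gr 0, hcomp X.internal (-B) ((A.vac, -y) : V × V) = (A.vac, z) := by
    have e : ((A.vac, -y) : V × V) = (A.vac, 0) + (0, -y) := by simp
    have hvac : ((A.vac, 0) : V × V) ∈ X.gr (-B) := by
      rw [hXgr, neg_add_cancel]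
      exact ⟨A.vac_mem, zero_mem _⟩
    have hz : ∃ z, hcomp X.internal (-B) ((0, -y) : V × V) = (0, z) := by
      have := ((X.isSub_iff _).1 hK).2 (-B) (0, -y) ⟨zero_mem _, trivial⟩
      have h4 : (hcomp X.internal (-B) ((0, -y) : V × V)).1 = 0 := this.1
      exact ⟨(hcomp X.internal (-B) ((0, -y) : V × V)).2, Prod.ext h4 rfl⟩
    obtain ⟨z, hz⟩ := hz
    refine ⟨z, ?_, ?_⟩
    · have h5 := hcomp_mem X.internal (-B) ((0, -y) : V × V)
      rw [hz, hXgr, neg_add_cancel] at h5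
      exact h5.2
    · rw [e, map_add, hcomp_of_mem X.internal (-B) (-B) _ hvac, if_pos rfl, hz]
      simp
  obtain ⟨z, hz0, hz⟩ := h3
  rw [hz] at h2
  have h4 : X.Y A.om 0 (A.vac, z) ∈ C := hC.1 A.om 0 _ h2
  rw [hXY] at h4
  simp only [A.creation A.om 0 le_rfl] at h4
  have h5 : ((0, A.Y A.om 0 z + A.F v A.om 0 A.vac) : V × V) ∈
      (Submodule.prod ⊥ ⊤ : Submodule ℂ (V × V)) ⊓ C :=
    ⟨⟨zero_mem _, trivial⟩, h4⟩
  rw [hcompl.inf_eq_bot, Submodule.mem_bot] at h5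
  have h6 : A.Y A.om 0 z + A.F v A.om 0 A.vac = 0 := congrArg Prod.snd h5
  have h7 : v = -(A.F v A.om 0 A.vac - v) - A.Y A.om 0 z := by
    have : A.F v A.om 0 A.vac = -A.Y A.om 0 z := by
      rw [add_comm] at h6
      exact eq_neg_of_add_eq_zero_left h6
    rw [this]
    abel
  rw [h7]
  exact Submodule.sub_mem _ (Submodule.neg_mem _ (A.F_om v hv)) (Submodule.mem_map_of_mem hz0)

/-- The zero modes of the elements of `L(-1) V_0` vanish. -/
theorem VOA.zero_of_mem_DV0 (v : V) (hv : v ∈ A.DV0) (w : V) : A.Y v 0 w = 0 := by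
  obtain ⟨x, -, rfl⟩ := hv
  rw [A.translation]
  simp

theorem VOA.DV0_le : A.DV0 ≤ A.gr 1 := by
  rintro _ ⟨x, hx, rfl⟩
  have := A.pow_graded 1 0 x hx
  simpa using this

end Pool.Agent.VOAut
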