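import Pool.Agent.VOAut.Basic

/-!
# Finiteness of the automorphism group when there are no derivations

Let `V` be a vertex operator algebra generated by a finite dimensional subspace `U` which is
stable under `Aut(V)`.  If every derivation `D` of `V` with `D ω = 0` is zero, then `Aut(V)` is
finite.  The proof: the algebra of functions on `Aut(V)` generated by the matrix coefficients is
finitely generated; for every automorphism `g` the maximal ideal `m_g` of functions that vanish at
`g` satisfies `m_g = m_g ^ 2` (otherwise a point derivation gives a derivation of `V`), so it is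
generated by an idempotent; by the Noetherian property there are only finitely many `g`.
-/

set_option autoImplicit false

universe u

open Finset

namespace Pool.Agent.VOAut

variable {V : Type u} [AddCommGroup V] [Module ℂ V] (A : VOA V)

/-- The set of automorphisms. -/
abbrev VOA.AG : Type u := {g : V ≃ₗ[ℂ] V // A.IsAut g}

theorem VOA.aut_gr (g : A.AG) (n : ℤ) (v : V) (hv : v ∈ A.gr n) : g.1 v ∈ A.gr n := by
  rw [A.mem_gr] at *
  have h := g.2.1 A.om 1 v
  rw [g.2.2, hv, map_smul] at h
  exact h.symm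

theorem VOA.aut_bdd (v : V) : ∃ E : Submodule ℂ V, FiniteDimensional ℂ E ∧ ∀ g : A.AG, g.1 v ∈ E := by
  have hv : v ∈ ⨆ n, A.gr n := by
    rw [A.internal.submodule_iSup_eq_top]
    exact Submodule.mem_top
  induction hv using Submodule.iSup_induction' with
  | mem n x hx => exact ⟨A.gr n, A.findim n, fun g => A.aut_gr g n x hx⟩
  | zero => exact ⟨⊥, inferInstance, fun g => by simp⟩
  | add x y _ _ hx hy =>
    obtain ⟨E, hE, h1⟩ := hx
    obtain ⟨F, hF, h2⟩ := hy
    refine ⟨E ⊔ F, inferInstance, fun g => ?_⟩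
    rw [map_add]
    exact Submodule.add_mem_sup (h1 g) (h2 g)

/-- coordinates on a finite dimensional subspace, extended to `V` -/
theorem exists_coord (E : Submodule ℂ V) [FiniteDimensional ℂ E] :
    ∃ (r : ℕ) (e : Fin r → V) (c : Fin r → Module.Dual ℂ V), (∀ i, e i ∈ E) ∧
      ∀ x ∈ E, x = ∑ i, c i x • e i := by
  let b := Module.finBasis ℂ E
  have hc : ∀ i, ∃ f : Module.Dual ℂ V, f ∘ₗ E.subtype = b.coord i :=
    fun i => LinearMap.exists_extend (b.coord i)
  choose c hc using hc
  refine ⟨_, fun i => (b i : V), c, fun i => (b i).2, fun x hx => ?_⟩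
  have h := congrArg (E.subtype) (b.sum_repr ⟨x, hx⟩)
  rw [map_sum] at h
  simp only [map_smul, Submodule.subtype_apply] at h
  refine h.symm.trans ?_
  refine Finset.sum_congr rfl (fun i _ => ?_)
  congr 1
  have := congrArg (fun f => f ⟨x, hx⟩) (hc i)
  simp only [LinearMap.comp_apply, Submodule.subtype_apply] at this
  rw [this]
  rfl

/-- matrix coefficients -/
def VOA.mc (l : Module.Dual ℂ V) (v : V) : A.AG → ℂ := fun g => l (g.1 v)

theorem VOA.mc_add (l : Module.Dual ℂ V) (v w : V) : A.mc l (v + w) = A.mc l v + A.mc l w := by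
  funext g
  simp [VOA.mc]

theorem VOA.mc_smul (l : Module.Dual ℂ V) (c : ℂ) (v : V) : A.mc l (c • v) = c • A.mc l v := by
  funext g
  simp [VOA.mc]

theorem VOA.mc_add_left (l l' : Module.Dual ℂ V) (v : V) :
    A.mc (l + l') v = A.mc l v + A.mc l' v := by
  funext g
  simp [VOA.mc]

theorem VOA.mc_smul_left (l : Module.Dual ℂ V) (c : ℂ) (v : V) :
    A.mc (c • l) v = c • A.mc l v := by
  funext g
  simp [VOA.mc]

/-- expansion of `h v` in coordinates -/
theorem VOA.mc_expand (v : V) : ∃ (r : ℕ) (e : Fin r → V) (c : Fin r → Module.Dual ℂ V),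
    ∀ g : A.AG, g.1 v = ∑ i, A.mc (c i) v g • e i := by
  obtain ⟨E, hE, hv⟩ := A.aut_bdd v
  obtain ⟨r, e, c, _, h⟩ := exists_coord E
  exact ⟨r, e, c, fun g => h _ (hv g)⟩

/-- the product formula for matrix coefficients -/
theorem VOA.mc_mul (l : Module.Dual ℂ V) (u v : V) (n : ℤ) {r s : ℕ} (e : Fin r → V)
    (c : Fin r → Module.Dual ℂ V) (e' : Fin s → V) (c' : Fin s → Module.Dual ℂ V)
    (h : ∀ g : A.AG, g.1 u = ∑ i, A.mc (c i) u g • e i)
    (h' : ∀ g : A.AG, g.1 v = ∑ i, A.mc (c' i) v g • e' i) :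
    A.mc l (A.Y u n v) = ∑ i, ∑ j, (l (A.Y (e i) n (e' j))) • (A.mc (c i) u * A.mc (c' j) v) := by
  funext g
  have h1 : A.mc l (A.Y u n v) g = l (A.Y (g.1 u) n (g.1 v)) := by
    unfold VOA.mc
    rw [g.2.1]
  have h2 := h g
  have h3 := h' g
  rw [h1, h2, h3]
  simp only [map_sum, map_smul, Finset.sum_apply, Pi.smul_apply, LinearMap.sum_apply,
    LinearMap.smul_apply, Pi.mul_apply, smul_eq_mul, Finset.mul_sum]
  rw [Finset.sum_comm]
  refine Finset.sum_congr rfl (fun i _ => ?_)
  refine Finset.sum_congr rfl (fun j _ => ?_)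
  ring

section

variable (U : Submodule ℂ V)

/-- vectors all of whose matrix coefficients lie in a subalgebra -/
def VOA.PP (S : Subalgebra ℂ (A.AG → ℂ)) : Submodule ℂ V where
  carrier := {v | ∀ l : Module.Dual ℂ V, A.mc l v ∈ S}
  zero_mem' := by
    intro l
    have : A.mc l (0 : V) = 0 := by
      funext g
      simp [VOA.mc]
    rw [this]
    exact S.zero_mem
  add_mem' := by
    intro a b ha hb l
    rw [A.mc_add]
    exact S.add_mem (ha l) (hb l)
  smul_mem' := by
    intro c a ha l
    rw [A.mc_smul]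
    exact S.smul_mem (ha l) c

theorem VOA.PP_top (S : Subalgebra ℂ (A.AG → ℂ))
    (hgen : ∀ P : Submodule ℂ V, A.vac ∈ P → U ≤ P →
      (∀ u ∈ P, ∀ v ∈ P, ∀ n : ℤ, A.Y u n v ∈ P) → P = ⊤)
    (hU : ∀ u ∈ U, ∀ l : Module.Dual ℂ V, A.mc l u ∈ S) : A.PP S = ⊤ := by
  apply hgen
  · intro l
    have : A.mc l A.vac = algebraMap ℂ (A.AG → ℂ) (l A.vac) := by
      funext g
      have hg : g.1 A.vac = A.vac := by
        have h1 := g.2.1 A.vac (-1) (g.1.symm A.vac)
        rw [A.vacuum, if_pos rfl, LinearEquiv.apply_symm_apply, A.creation_neg_one] at h1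
        exact h1.symm
      simp only [VOA.mc, hg]
      rfl
    rw [this]
    exact S.algebraMap_mem _
  · exact hU
  · intro u hu v hv n l
    obtain ⟨r, e, c, h⟩ := A.mc_expand u
    obtain ⟨s, e', c', h'⟩ := A.mc_expand v
    rw [A.mc_mul l u v n e c e' c' h h']
    exact S.sum_mem (fun i _ => S.sum_mem (fun j _ => S.smul_mem (S.mul_mem (hu _) (hv _)) _))

end

theorem VOA.mc_lin (S : Subalgebra ℂ (A.AG → ℂ)) (hS : ∀ l v, A.mc l v ∈ S)
    (l : Module.Dual ℂ V) (v : V) {r : ℕ} (e : Fin r → V) (c : Fin r → Module.Dual ℂ V)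
    (h : ∀ g : A.AG, g.1 v = ∑ i, A.mc (c i) v g • e i) :
    (⟨A.mc l v, hS l v⟩ : S) = ∑ i, l (e i) • (⟨A.mc (c i) v, hS _ _⟩ : S) := by
  apply Subtype.ext
  rw [AddSubmonoidClass.coe_finsetSum]
  funext g
  have h3 : A.mc l v g = l (g.1 v) := rfl
  have h4 := h g
  change A.mc l v g = _
  rw [h3, h4, map_sum, Finset.sum_apply]
  refine Finset.sum_congr rfl (fun i _ => ?_)
  rw [map_smul, smul_eq_mul, mul_comm]
  rfl

theorem dual_sep (x y : V) (h : ∀ l : Module.Dual ℂ V, l x = l y) : x = y := by
  rw [← sub_eq_zero]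
  apply (Module.forall_dual_apply_eq_zero_iff ℂ (x - y)).1
  intro l
  rw [map_sub, h l, sub_self]

/-- the value of a linear functional on matrix coefficients is given by a linear map -/
theorem VOA.exists_der (S : Subalgebra ℂ (A.AG → ℂ)) (hS : ∀ l v, A.mc l v ∈ S)
    (δ : S →ₗ[ℂ] ℂ) : ∃ D : V →ₗ[ℂ] V, ∀ (l : Module.Dual ℂ V) (v : V),
      l (D v) = δ ⟨A.mc l v, hS l v⟩ := by
  have h1 : ∀ v : V, ∃ x : V, ∀ l : Module.Dual ℂ V, l x = δ ⟨A.mc l v, hS l v⟩ := by
    intro v
    obtain ⟨r, e, c, h⟩ := A.mc_expand v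
    refine ⟨∑ i, δ ⟨A.mc (c i) v, hS _ _⟩ • e i, fun l => ?_⟩
    have h2 := A.mc_lin S hS l v e c h
    rw [h2, map_sum, map_sum]
    refine Finset.sum_congr rfl (fun i _ => ?_)
    rw [map_smul, map_smul, smul_eq_mul, smul_eq_mul, mul_comm]
  choose D hD using h1
  have hsep : ∀ x y : V, (∀ l : Module.Dual ℂ V, l x = l y) → x = y := dual_sep
  refine ⟨{ toFun := D, map_add' := ?_, map_smul' := ?_ }, fun l v => hD v l⟩
  · intro v w
    apply hsep
    intro l
    rw [map_add, hD, hD, hD, ← map_add]
    congr 1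
    exact Subtype.ext (A.mc_add l v w)
  · intro c v
    apply hsep
    intro l
    rw [map_smul, hD, hD, ← map_smul]
    congr 1
    exact Subtype.ext (A.mc_smul l c v)

theorem VOA.aut_finite (U : Submodule ℂ V) [FiniteDimensional ℂ U]
    (hst : ∀ g : A.AG, ∀ u ∈ U, g.1 u ∈ U)
    (hgen : ∀ P : Submodule ℂ V, A.vac ∈ P → U ≤ P →
      (∀ u ∈ P, ∀ v ∈ P, ∀ n : ℤ, A.Y u n v ∈ P) → P = ⊤)
    (hder : ∀ D : Module.End ℂ V, (∀ (u : V) (n : ℤ) (w : V),
      D (A.Y u n w) = A.Y (D u) n w + A.Y u n (D w)) → D A.om = 0 → D = 0) :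
    Finite A.AG := by
  classical
  obtain ⟨r, e, c, he, hc⟩ := exists_coord U
  -- the finitely generated algebra of functions
  set T : Finset (A.AG → ℂ) :=
    (Finset.univ : Finset (Fin r × Fin r)).image (fun p => A.mc (c p.1) (e p.2)) with hT
  set S : Subalgebra ℂ (A.AG → ℂ) := Algebra.adjoin ℂ (T : Set (A.AG → ℂ)) with hSdef
  have hnoe : IsNoetherianRing S := isNoetherianRing_of_fg (Subalgebra.fg_adjoin_finset T)
  have hTS : ∀ i j, A.mc (c i) (e j) ∈ S := fun i j => Algebra.subset_adjoin (by
    rw [hT]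
    exact Finset.mem_coe.2 (Finset.mem_image.2 ⟨(i, j), Finset.mem_univ _, rfl⟩))
  have hU : ∀ u ∈ U, ∀ l : Module.Dual ℂ V, A.mc l u ∈ S := by
    intro u hu l
    have h1 : A.mc l u = ∑ j, ∑ i, (c j u * l (e i)) • A.mc (c i) (e j) := by
      funext g
      have h2 : A.mc l u g = l (g.1 u) := rfl
      have h3 : ∀ j, l (g.1 (e j)) = ∑ i, c i (g.1 (e j)) * l (e i) := by
        intro j
        have := congrArg l (hc _ (hst g _ (he j)))
        rw [map_sum] at this
        simp only [map_smul, smul_eq_mul] at this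
        exact this
      have h4 : l (g.1 u) = ∑ j, c j u * l (g.1 (e j)) := by
        have := congrArg (fun x => l (g.1 x)) (hc u hu)
        simp only [map_sum, map_smul, smul_eq_mul] at this
        exact this
      rw [h2, h4, Finset.sum_apply]
      refine Finset.sum_congr rfl (fun j _ => ?_)
      rw [h3 j, Finset.sum_apply, Finset.mul_sum]
      refine Finset.sum_congr rfl (fun i _ => ?_)
      simp only [Pi.smul_apply, VOA.mc, smul_eq_mul]
      ring
    rw [h1]
    exact S.sum_mem (fun j _ => S.sum_mem (fun i _ => S.smul_mem (hTS i j) _))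
  have hS : ∀ l v, A.mc l v ∈ S := by
    intro l v
    have : v ∈ A.PP S := by
      rw [A.PP_top U S hgen hU]
      exact Submodule.mem_top
    exact this l
  -- evaluation at `g`
  let ev : A.AG → (S →ₐ[ℂ] ℂ) := fun g => (Pi.evalAlgHom ℂ (fun _ : A.AG => ℂ) g).comp S.val
  have hev : ∀ (g : A.AG) (f : S), ev g f = f.1 g := fun g f => rfl
  -- `m_g = m_g ^ 2`
  have hsq : ∀ g : A.AG, IsIdempotentElem (RingHom.ker (ev g)) := by
    intro g
    by_contra hne
    set m := RingHom.ker (ev g) with hm
    have hlt : ∃ f ∈ m, f ∉ m * m := by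
      by_contra hcon
      push Not at hcon
      exact hne (le_antisymm Ideal.mul_le_left hcon)
    obtain ⟨f, hf, hf2⟩ := hlt
    let Q : Submodule ℂ S := Submodule.restrictScalars ℂ (m * m) ⊔ Submodule.span ℂ {(1 : S)}
    have hfQ : f ∉ Q := by
      intro hfQ
      obtain ⟨a, ha, b, hb, hab⟩ := Submodule.mem_sup.1 hfQ
      obtain ⟨t, rfl⟩ := Submodule.mem_span_singleton.1 hb
      have ha' : ev g a = 0 := Ideal.mul_le_left (J := m) (I := m) ha
      have h1 : ev g f = t := by
        rw [← hab, map_add, ha', zero_add, map_smul, map_one, smul_eq_mul, mul_one]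
      have h2 : ev g f = 0 := hf
      rw [h2] at h1
      rw [← h1, zero_smul, add_zero] at hab
      exact hf2 (hab ▸ ha)
    obtain ⟨δ, hδf, hδQ⟩ := Submodule.exists_le_ker_of_notMem hfQ
    have hδ1 : δ 1 = 0 := hδQ (Submodule.mem_sup_right (Submodule.mem_span_singleton_self _))
    have hδm : ∀ x ∈ m * m, δ x = 0 := fun x hx => hδQ (Submodule.mem_sup_left hx)
    have hleib : ∀ x y : S, δ (x * y) = ev g x * δ y + ev g y * δ x := by
      intro x y
      have h1 : (x - algebraMap ℂ S (ev g x)) * (y - algebraMap ℂ S (ev g y)) ∈ m * m := by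
        apply Ideal.mul_mem_mul
        · change ev g _ = 0
          rw [map_sub, AlgHom.commutes]
          simp
        · change ev g _ = 0
          rw [map_sub, AlgHom.commutes]
          simp
      have h2 := hδm _ h1
      have h3 : (x - algebraMap ℂ S (ev g x)) * (y - algebraMap ℂ S (ev g y)) =
          x * y - (ev g x) • y - (ev g y) • x + (ev g x * ev g y) • 1 := by
        simp only [Algebra.smul_def, map_mul]
        ring
      rw [h3, map_add, map_sub, map_sub, map_smul, map_smul, map_smul, hδ1] at h2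
      simp only [smul_eq_mul, mul_zero, add_zero] at h2
      linear_combination h2
    obtain ⟨D, hD⟩ := A.exists_der S hS δ
    have hsep : ∀ x y : V, (∀ l : Module.Dual ℂ V, l x = l y) → x = y := dual_sep
    -- the derivation property over `g`
    have hDer : ∀ (u : V) (n : ℤ) (v : V),
        D (A.Y u n v) = A.Y (D u) n (g.1 v) + A.Y (g.1 u) n (D v) := by
      intro u n v
      obtain ⟨r, e, c, h⟩ := A.mc_expand u
      obtain ⟨s, e', c', h'⟩ := A.mc_expand v
      apply hsep
      intro l
      have h1 : (⟨A.mc l (A.Y u n v), hS _ _⟩ : S) = ∑ i, ∑ j, (l (A.Y (e i) n (e' j))) •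
          ((⟨A.mc (c i) u, hS _ _⟩ : S) * ⟨A.mc (c' j) v, hS _ _⟩) := by
        apply Subtype.ext
        rw [AddSubmonoidClass.coe_finsetSum]
        simp only [AddSubmonoidClass.coe_finsetSum]
        exact A.mc_mul l u v n e c e' c' h h'
      have hDu : D u = ∑ i, δ ⟨A.mc (c i) u, hS _ _⟩ • e i := by
        apply hsep
        intro l
        have h2 := A.mc_lin S hS l u e c h
        rw [hD, h2, map_sum, map_sum]
        refine Finset.sum_congr rfl (fun i _ => ?_)
        rw [map_smul, map_smul, smul_eq_mul, smul_eq_mul, mul_comm]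
      have hDv : D v = ∑ i, δ ⟨A.mc (c' i) v, hS _ _⟩ • e' i := by
        apply hsep
        intro l
        have h2 := A.mc_lin S hS l v e' c' h'
        rw [hD, h2, map_sum, map_sum]
        refine Finset.sum_congr rfl (fun i _ => ?_)
        rw [map_smul, map_smul, smul_eq_mul, smul_eq_mul, mul_comm]
      rw [hD, h1, hDu, hDv, h g, h' g]
      simp only [map_sum, map_smul, map_add, Finset.sum_apply, Pi.smul_apply, LinearMap.sum_apply,
        LinearMap.smul_apply, smul_eq_mul, Finset.mul_sum]
      rw [Finset.sum_comm, ← Finset.sum_add_distrib]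
      refine Finset.sum_congr rfl (fun j _ => ?_)
      rw [← Finset.sum_add_distrib]
      refine Finset.sum_congr rfl (fun i _ => ?_)
      rw [hleib, hev, hev]
      change _ * (A.mc (c i) u g * _ + A.mc (c' j) v g * _) = _
      ring
    let D' : Module.End ℂ V := g.1.symm.toLinearMap ∘ₗ D
    have hD' : D' = 0 := by
      apply hder
      · intro u n w
        change g.1.symm (D _) = _
        rw [hDer, map_add]
        have e1 : ∀ (x : V) (y : V), g.1.symm (A.Y (g.1 x) n (g.1 y)) = A.Y x n y := by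
          intro x y
          rw [← g.2.1, LinearEquiv.symm_apply_apply]
        have e2 : g.1.symm (A.Y (D u) n (g.1 w)) = A.Y (D' u) n w := by
          rw [← e1 (D' u) w]
          change _ = g.1.symm (A.Y (g.1 (g.1.symm (D u))) n (g.1 w))
          rw [LinearEquiv.apply_symm_apply]
        have e3 : g.1.symm (A.Y (g.1 u) n (D w)) = A.Y u n (D' w) := by
          rw [← e1 u (D' w)]
          change _ = g.1.symm (A.Y (g.1 u) n (g.1 (g.1.symm (D w))))
          rw [LinearEquiv.apply_symm_apply]
        rw [e2, e3]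
      · change g.1.symm (D A.om) = 0
        have : D A.om = 0 := by
          apply hsep
          intro l
          rw [hD, map_zero]
          have h1 : (⟨A.mc l A.om, hS _ _⟩ : S) = (l A.om) • 1 := by
            apply Subtype.ext
            funext g
            simp only [VOA.mc, g.2.2]
            change _ = l A.om • (1 : ℂ)
            rw [smul_eq_mul, mul_one]
          rw [h1, map_smul, hδ1, smul_zero]
        rw [this, map_zero]
    have hD0 : D = 0 := by
      apply LinearMap.ext
      intro v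
      have := congrArg (fun F : Module.End ℂ V => g.1 (F v)) hD'
      change g.1 (g.1.symm (D v)) = g.1 0 at this
      rw [LinearEquiv.apply_symm_apply, map_zero] at this
      exact this
    -- `δ` kills the generators
    have hδ0 : ∀ x : S, δ x = 0 := by
      rintro ⟨x, hx⟩
      induction hx using Algebra.adjoin_induction with
      | mem x hx =>
        rw [hT] at hx
        obtain ⟨p, _, rfl⟩ := Finset.mem_image.1 (Finset.mem_coe.1 hx)
        rw [← hD, hD0, LinearMap.zero_apply, map_zero]
      | algebraMap t =>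
        have : (⟨algebraMap ℂ (A.AG → ℂ) t, S.algebraMap_mem t⟩ : S) = t • 1 := by
          apply Subtype.ext
          funext g
          change t = t • (1 : ℂ)
          rw [smul_eq_mul, mul_one]
        rw [this, map_smul, hδ1, smul_zero]
      | add x y hx hy h1 h2 =>
        have : (⟨x + y, S.add_mem hx hy⟩ : S) = ⟨x, hx⟩ + ⟨y, hy⟩ := rfl
        rw [this, map_add, h1, h2, add_zero]
      | mul x y hx hy h1 h2 =>
        have : (⟨x * y, S.mul_mem hx hy⟩ : S) = ⟨x, hx⟩ * ⟨y, hy⟩ := rfl
        rw [this, hleib, h1, h2, mul_zero, mul_zero, add_zero]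
    exact hδf (hδ0 f)
  -- idempotent generators
  have hidem : ∀ g : A.AG, ∃ t : S, IsIdempotentElem t ∧ RingHom.ker (ev g) = Ideal.span {t} := by
    intro g
    have := (Ideal.isIdempotentElem_iff_of_fg (RingHom.ker (ev g))
      (IsNoetherian.noetherian _)).1 (hsq g)
    obtain ⟨t, h1, h2⟩ := this
    exact ⟨t, h1, h2⟩
  choose t ht1 ht2 using hidem
  -- separation
  have hsepG : ∀ g h : A.AG, t g ∈ RingHom.ker (ev h) → g = h := by
    intro g h hgh
    have hle : RingHom.ker (ev g) ≤ RingHom.ker (ev h) := by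
      rw [ht2 g, Ideal.span_singleton_le_iff_mem]
      exact hgh
    apply Subtype.ext
    apply LinearEquiv.ext
    intro v
    rw [← sub_eq_zero]
    apply (Module.forall_dual_apply_eq_zero_iff ℂ _).1
    intro l
    have h1 : (⟨A.mc l v, hS l v⟩ - algebraMap ℂ S (A.mc l v g) : S) ∈ RingHom.ker (ev g) := by
      change ev g _ = 0
      rw [map_sub, AlgHom.commutes, hev]
      simp
    have h2 := hle h1
    change ev h _ = 0 at h2
    rw [map_sub, AlgHom.commutes, hev] at h2
    rw [map_sub]
    change l (h.1 v) - l (g.1 v) = 0 at h2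
    rw [← neg_sub, h2, neg_zero]
  -- Noetherian argument
  let J : Ideal S := Ideal.span (Set.range (fun g => 1 - t g))
  obtain ⟨s, hs⟩ : ∃ s : Finset A.AG, J = Ideal.span ((fun g => 1 - t g) '' (s : Set A.AG)) := by
    have hfg : J.FG := IsNoetherian.noetherian J
    obtain ⟨F, hF1, hF2⟩ := (Submodule.fg_span_iff_fg_span_finset_subset _).1 hfg
    have hFx : ∀ x ∈ F, ∃ g : A.AG, 1 - t g = x := fun x hx => hF1 hx
    have : Nonempty A.AG := ⟨⟨LinearEquiv.refl ℂ V, fun _ _ _ => rfl, rfl⟩⟩
    choose! γ hγ using hFx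
    refine ⟨F.image γ, le_antisymm ?_ (Ideal.span_mono (Set.image_subset_range _ _))⟩
    change Submodule.span S (Set.range fun g => 1 - t g) ≤ _
    rw [hF2]
    apply Submodule.span_le.2
    intro x hx
    apply Submodule.subset_span
    refine ⟨γ x, ?_, hγ x hx⟩
    rw [Finset.coe_image]
    exact ⟨x, hx, rfl⟩
  have hall : ∀ h : A.AG, h ∈ s := by
    intro h
    by_contra hh
    have hJ : J ≤ RingHom.ker (ev h) := by
      rw [hs, Ideal.span_le]
      rintro _ ⟨g, hg, rfl⟩
      change ev h (1 - t g) = 0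
      have h1 : ev h (t g) * ev h (t g) = ev h (t g) := by
        rw [← map_mul, (ht1 g).eq]
      have h2 : ev h (t g) ≠ 0 := by
        intro h0
        have := hsepG g h h0
        rw [this] at hg
        exact hh hg
      have h3 : ev h (t g) = 1 := by
        apply mul_left_cancel₀ h2
        rw [h1, mul_one]
      rw [map_sub, map_one, h3, sub_self]
    have h1 : (1 - t h) ∈ RingHom.ker (ev h) := hJ (Ideal.subset_span ⟨h, rfl⟩)
    have h2 : t h ∈ RingHom.ker (ev h) := by
      rw [ht2 h]
      exact Ideal.mem_span_singleton_self _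
    have h3 : (1 : S) ∈ RingHom.ker (ev h) := by
      have := (RingHom.ker (ev h)).add_mem h1 h2
      rwa [sub_add_cancel] at this
    have h4 : ev h 1 = 0 := h3
    rw [map_one] at h4
    exact one_ne_zero h4
  exact Finite.of_surjective (fun g : s => g.1) (fun g => ⟨⟨g, hall g⟩, rfl⟩)

end Pool.Agent.VOAut
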