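import Pool.Agent.VOAut.Basic

set_option autoImplicit false

universe u

open Filter Finset

namespace Pool.Agent.VOAut

/-- Coefficients of `log (1 + x)`. -/
noncomputable def cc (k : ℕ) : ℂ := if k = 0 then 0 else (-1) ^ (k + 1) / k

theorem cc_zero : cc 0 = 0 := by simp [cc]

theorem choose_neg_nat (s t : ℕ) (hs : s ≠ 0) :
    Ring.choose (-(s : ℤ)) t = (-1) ^ t * ((s + t - 1).choose t : ℤ) := by
  rw [Ring.choose_neg]
  have : (s : ℤ) + t - 1 = ((s + t - 1 : ℕ) : ℤ) := by omega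
  rw [this, Ring.choose_natCast, Int.negOnePow_def]
  simp [Units.smul_def]

theorem cc_choose (s t : ℕ) (hs : s ≠ 0) :
    cc (s + t) * ((s + t).choose s : ℕ) = cc s * ((Ring.choose (-(s : ℤ)) t : ℤ) : ℂ) := by
  rw [choose_neg_nat s t hs]
  unfold cc
  rw [if_neg hs, if_neg (by omega)]
  obtain ⟨s, rfl⟩ : ∃ s', s = s' + 1 := ⟨s - 1, by omega⟩
  have h1 : (s + 1 + t) * (s + t).choose s = (s + 1 + t).choose (s + 1) * (s + 1) := by
    have := Nat.add_one_mul_choose_eq (s + t) s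
    have e : s + 1 + t = s + t + 1 := by ring
    rw [e]
    exact this
  have h2 : (s + 1 + t - 1).choose t = (s + t).choose s := by
    have e : s + 1 + t - 1 = s + t := by omega
    rw [e]
    exact (Nat.choose_symm_add).symm
  rw [h2]
  have h3 : ((s + 1 + t : ℕ) : ℂ) * ((s + t).choose s : ℕ) =
      ((s + 1 + t).choose (s + 1) : ℕ) * ((s + 1 : ℕ) : ℂ) := by
    exact_mod_cast h1
  have h4 : ((s + 1 + t : ℕ) : ℂ) ≠ 0 := by
    exact_mod_cast (by omega : s + 1 + t ≠ 0)
  have h5 : ((s + 1 : ℕ) : ℂ) ≠ 0 := by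
    exact_mod_cast (by omega : s + 1 ≠ 0)
  push_cast
  push_cast at h3 h4 h5
  field_simp
  have e : (-1 : ℂ) ^ (s + 1 + t + 1) = (-1) ^ (s + 1 + 1) * (-1) ^ t := by
    rw [← pow_add]; congr 1; ring
  rw [e]
  linear_combination (-(-1 : ℂ) ^ (s + 1 + 1) * (-1) ^ t) * h3

theorem diag {W : Type*} [AddCommMonoid W] (h : ℕ → ℕ → W) (S J K : ℕ)
    (hz : ∀ s t, (S ≤ s ∨ J ≤ t) → h s t = 0) (hK : S + J ≤ K) :
    ∑ k ∈ range K, ∑ p ∈ Finset.HasAntidiagonal.antidiagonal k, h p.1 p.2 =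
      ∑ s ∈ range S, ∑ t ∈ range J, h s t := by
  rw [← Finset.sum_product' (range S) (range J) h]
  rw [← Finset.sum_biUnion]
  · symm
    apply Finset.sum_subset
    · intro q hq
      simp only [mem_product, mem_range, mem_biUnion, HasAntidiagonal.mem_antidiagonal] at *
      exact ⟨q.1 + q.2, by omega, rfl⟩
    · intro q _ hq
      apply hz
      simp only [mem_product, mem_range] at hq
      omega
  · intro a _ b _ hab
    simp only [Function.onFun]
    rw [Finset.disjoint_left]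
    intro q hq hq'
    simp only [HasAntidiagonal.mem_antidiagonal] at hq hq'
    exact hab (hq.symm.trans hq')

theorem vander (m : ℤ) (s j : ℕ) :
    ∑ p ∈ Finset.HasAntidiagonal.antidiagonal j, Ring.choose m p.1 * Ring.choose (-(s : ℤ)) p.2 =
      Ring.choose (m - s) j := by
  rw [sub_eq_add_neg, Ring.add_choose_eq j (Commute.all _ _)]

variable {V : Type u} [AddCommGroup V] [Module ℂ V] (A : VOA V)

theorem VOA.jac_range (u v w : V) (l m n : ℤ) (N N' : ℕ)
    (h1 : ∀ i : ℕ, N ≤ i → A.Y u (l + i) v = 0) (h2 : ∀ i : ℕ, N' ≤ i → A.Y v (n + i) w = 0)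
    (h3 : ∀ i : ℕ, N' ≤ i → A.Y u (m + i) w = 0) :
    ∑ i ∈ range N, A.jl u v w l m n i = ∑ i ∈ range N', A.jr u v w l m n i := by
  rw [← finsum_eq_range (A.jl u v w l m n) N, ← finsum_eq_range (A.jr u v w l m n) N']
  · exact A.jacobi u v w l m n
  · intro i hi
    unfold VOA.jr
    rw [h2 i hi, h3 i hi]
    simp
  · intro i hi
    unfold VOA.jl
    rw [h1 i hi]
    simp

/-- The first-order deformation of the mode `u_n` defined by `v`. -/
noncomputable def VOA.F (v u : V) (n : ℤ) (x : V) : V :=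
  ∑ᶠ k : ℕ, cc k • A.Y (A.Y v k u) (n - k) x

theorem VOA.F_eq (v u : V) (N : ℕ) (hN : ∀ k : ℕ, N ≤ k → A.Y v k u = 0) (n : ℤ) (x : V) :
    A.F v u n x = ∑ k ∈ range N, cc k • A.Y (A.Y v k u) (n - k) x := by
  unfold VOA.F
  apply finsum_eq_range
  intro i hi
  rw [hN i hi]
  simp

theorem VOA.trunc_zero (u v : V) : ∃ N : ℕ, ∀ i : ℕ, N ≤ i → A.Y u i v = 0 := by
  obtain ⟨N, hN⟩ := A.trunc_nat u v 0
  exact ⟨N, fun i hi => by simpa using hN i hi⟩

theorem VOA.F_add_left (v u u' : V) (n : ℤ) (x : V) :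
    A.F v (u + u') n x = A.F v u n x + A.F v u' n x := by
  obtain ⟨N, hN⟩ := A.trunc_zero v u
  obtain ⟨N', hN'⟩ := A.trunc_zero v u'
  rw [A.F_eq v u (max N N') (fun k hk => hN k ((le_max_left _ _).trans hk)),
    A.F_eq v u' (max N N') (fun k hk => hN' k ((le_max_right _ _).trans hk)),
    A.F_eq v (u + u') (max N N') (fun k hk => by
      rw [map_add, hN k ((le_max_left _ _).trans hk), hN' k ((le_max_right _ _).trans hk),
        add_zero]), ← Finset.sum_add_distrib]
  refine Finset.sum_congr rfl (fun k _ => ?_)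
  rw [map_add, map_add, Pi.add_apply, LinearMap.add_apply, smul_add]

theorem VOA.F_smul_left (v u : V) (c : ℂ) (n : ℤ) (x : V) :
    A.F v (c • u) n x = c • A.F v u n x := by
  obtain ⟨N, hN⟩ := A.trunc_zero v u
  rw [A.F_eq v u N hN, A.F_eq v (c • u) N (fun k hk => by rw [map_smul, hN k hk, smul_zero]),
    Finset.smul_sum]
  refine Finset.sum_congr rfl (fun k _ => ?_)
  rw [map_smul, map_smul, Pi.smul_apply, LinearMap.smul_apply, smul_comm]

theorem VOA.F_add_right (v u : V) (n : ℤ) (x x' : V) :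
    A.F v u n (x + x') = A.F v u n x + A.F v u n x' := by
  obtain ⟨N, hN⟩ := A.trunc_zero v u
  rw [A.F_eq v u N hN, A.F_eq v u N hN, A.F_eq v u N hN, ← Finset.sum_add_distrib]
  refine Finset.sum_congr rfl (fun k _ => ?_)
  rw [map_add, smul_add]

theorem VOA.F_smul_right (v u : V) (n : ℤ) (c : ℂ) (x : V) :
    A.F v u n (c • x) = c • A.F v u n x := by
  obtain ⟨N, hN⟩ := A.trunc_zero v u
  rw [A.F_eq v u N hN, A.F_eq v u N hN, Finset.smul_sum]
  refine Finset.sum_congr rfl (fun k _ => ?_)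
  rw [map_smul, smul_comm]

/-- The deformation as a linear map. -/
noncomputable def VOA.FL (v : V) : V →ₗ[ℂ] (ℤ → Module.End ℂ V) where
  toFun u n :=
    { toFun := fun x => A.F v u n x
      map_add' := A.F_add_right v u n
      map_smul' := A.F_smul_right v u n }
  map_add' u u' := by
    ext n x
    exact A.F_add_left v u u' n x
  map_smul' c u := by
    ext n x
    exact A.F_smul_left v u c n x

theorem VOA.FL_apply (v u : V) (n : ℤ) (x : V) : A.FL v u n x = A.F v u n x := rfl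

theorem VOA.F_trunc (v u : V) (x : V) (n : ℤ) :
    ∃ N : ℕ, ∀ i : ℕ, N ≤ i → A.F v u (n + i) x = 0 := by
  obtain ⟨N, hN⟩ := A.trunc_zero v u
  choose f hf using fun k : ℕ => A.trunc_nat (A.Y v k u) x (n - k)
  refine ⟨(range N).sup f, fun i hi => ?_⟩
  rw [A.F_eq v u N hN]
  apply Finset.sum_eq_zero
  intro k hk
  have h1 : f k ≤ i := (Finset.le_sup hk).trans hi
  have h2 := hf k i h1
  have e : n + (i : ℤ) - k = n - k + i := by ring
  rw [e, h2, smul_zero]

/-- Second part of the deformed Jacobi identity. -/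
theorem VOA.part_two (v u w x : V) (hv0 : ∀ w, A.Y v 0 w = 0) (l m n : ℤ) (S I K : ℕ)
    (hS : ∀ s : ℕ, S ≤ s → A.Y v s u = 0)
    (hI : ∀ i : ℕ, I ≤ i → ∀ s : ℕ, A.Y (A.Y v s u) (l + i) w = 0) (hK : S + I ≤ K) :
    ∑ i ∈ range I, ∑ k ∈ range K, ∑ s ∈ range (k + 1),
      (((Ring.choose m i : ℤ) : ℂ) * (cc k * ((k.choose s : ℕ) : ℂ))) •
        A.Y (A.Y (A.Y v s u) (k + (l + i) - s) w) (m + n - i - k) x =
    ∑ s ∈ range S, cc s • ∑ j ∈ range (I + I), A.jl (A.Y v s u) w x l (m - s) n j := by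
  set T : ℕ → ℕ → V := fun s j => A.Y (A.Y (A.Y v s u) (l + j) w) (m - s + n - j) x with hT
  have hT1 : ∀ s j, S ≤ s → T s j = 0 := by
    intro s j hs
    simp only [hT, hS s hs, map_zero, Pi.zero_apply, LinearMap.zero_apply]
  have hT2 : ∀ s j, I ≤ j → T s j = 0 := by
    intro s j hj
    simp only [hT, hI j hj s, map_zero, Pi.zero_apply, LinearMap.zero_apply]
  have h1 : ∀ i ∈ range I, ∑ k ∈ range K, ∑ s ∈ range (k + 1),
      (((Ring.choose m i : ℤ) : ℂ) * (cc k * ((k.choose s : ℕ) : ℂ))) •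
        A.Y (A.Y (A.Y v s u) (k + (l + i) - s) w) (m + n - i - k) x =
      ∑ s ∈ range S, ∑ t ∈ range I, (((Ring.choose m i : ℤ) : ℂ) *
        (cc (s + t) * (((s + t).choose s : ℕ) : ℂ))) • T s (i + t) := by
    intro i _
    rw [← diag (fun s t => (((Ring.choose m i : ℤ) : ℂ) *
        (cc (s + t) * (((s + t).choose s : ℕ) : ℂ))) • T s (i + t)) S I K ?_ hK]
    · refine Finset.sum_congr rfl (fun k _ => ?_)
      rw [Finset.Nat.sum_antidiagonal_eq_sum_range_succ (fun s t => (((Ring.choose m i : ℤ) : ℂ) *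
        (cc (s + t) * (((s + t).choose s : ℕ) : ℂ))) • T s (i + t))]
      refine Finset.sum_congr rfl (fun s hs => ?_)
      have hs' : s ≤ k := by simpa [Nat.lt_succ_iff] using hs
      have e1 : s + (k - s) = k := by omega
      have e2 : (k : ℤ) + (l + i) - s = l + ((i + (k - s) : ℕ) : ℤ) := by push_cast; omega
      have e3 : m + n - i - k = m - s + n - ((i + (k - s) : ℕ) : ℤ) := by push_cast; omega
      simp only [hT, e1]
      rw [e2, e3]
    · rintro s t (h | h)
      · rw [hT1 _ _ h, smul_zero]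
      · rw [hT2 _ _ (by omega), smul_zero]
  rw [Finset.sum_congr rfl h1, Finset.sum_comm]
  refine Finset.sum_congr rfl (fun s _ => ?_)
  by_cases hs0 : s = 0
  · subst hs0
    have hu : A.Y v ((0 : ℕ) : ℤ) u = 0 := by simpa using hv0 u
    have : ∀ j, T 0 j = 0 := by
      intro j
      simp only [hT, hu, map_zero, Pi.zero_apply, LinearMap.zero_apply]
    simp [this, cc_zero]
  · have h2 : ∑ i ∈ range I, ∑ t ∈ range I, (((Ring.choose m i : ℤ) : ℂ) *
        (cc (s + t) * (((s + t).choose s : ℕ) : ℂ))) • T s (i + t) =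
        ∑ j ∈ range (I + I), ∑ p ∈ Finset.HasAntidiagonal.antidiagonal j,
          (if I ≤ p.1 ∨ I ≤ p.2 then 0 else (((Ring.choose m p.1 : ℤ) : ℂ) *
            (cc (s + p.2) * (((s + p.2).choose s : ℕ) : ℂ))) • T s (p.1 + p.2)) := by
      rw [diag (fun i t => if I ≤ i ∨ I ≤ t then 0 else (((Ring.choose m i : ℤ) : ℂ) *
            (cc (s + t) * (((s + t).choose s : ℕ) : ℂ))) • T s (i + t)) I I (I + I) ?_ le_rfl]
      · refine Finset.sum_congr rfl (fun i hi => Finset.sum_congr rfl (fun t ht => ?_))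
        simp only [mem_range] at hi ht
        rw [if_neg (by omega)]
      · intro i t h
        rw [if_pos h]
    rw [h2, Finset.smul_sum]
    refine Finset.sum_congr rfl (fun j _ => ?_)
    have h3 : A.jl (A.Y v s u) w x l (m - s) n j =
        ((Ring.choose (m - s) j : ℤ) : ℂ) • T s j := by
      simp only [VOA.jl, hT]
    rw [h3, ← vander m s j]
    push_cast
    rw [Finset.sum_smul, Finset.smul_sum]
    refine Finset.sum_congr rfl (fun p hp => ?_)
    have hp' : p.1 + p.2 = j := Finset.HasAntidiagonal.mem_antidiagonal.1 hp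
    rw [cc_choose s p.2 hs0, hp']
    split_ifs with h
    · rw [hT2 s j (by omega)]
      simp
    · rw [smul_smul]
      congr 1
      ring

theorem sum_range_le {W : Type*} [AddCommMonoid W] (f : ℕ → W) (I L : ℕ) (hIL : I ≤ L)
    (h : ∀ i, I ≤ i → f i = 0) : ∑ i ∈ range L, f i = ∑ i ∈ range I, f i := by
  symm
  apply Finset.sum_subset (Finset.range_subset_range.2 hIL)
  intro i _ hi
  rw [Finset.mem_range, not_lt] at hi
  exact h i hi

/-- Right side of the deformed Jacobi identity. -/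
theorem VOA.right_side (v u w x : V) (l m n : ℤ) (S L : ℕ)
    (hS : ∀ s : ℕ, S ≤ s → A.Y v s u = 0) (hS' : ∀ s : ℕ, S ≤ s → A.Y v s w = 0) :
    ∑ i ∈ range L, ((-1 : ℂ) ^ i * ((Ring.choose l i : ℤ) : ℂ)) •
      ((A.Y u (m + l - i) (A.F v w (n + i) x) + A.F v u (m + l - i) (A.Y w (n + i) x)) -
        (-1 : ℂ) ^ l • (A.Y w (n + l - i) (A.F v u (m + i) x) +
          A.F v w (n + l - i) (A.Y u (m + i) x))) =
    ∑ s ∈ range S, cc s • (∑ i ∈ range L, A.jr u (A.Y v s w) x l m (n - s) i +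
      ∑ i ∈ range L, A.jr (A.Y v s u) w x l (m - s) n i) := by
  simp only [← Finset.sum_add_distrib]
  simp only [Finset.smul_sum]
  rw [Finset.sum_comm]
  refine Finset.sum_congr rfl (fun i _ => ?_)
  rw [A.F_eq v w S hS', A.F_eq v u S hS, A.F_eq v u S hS, A.F_eq v w S hS']
  simp only [map_sum, map_smul, ← Finset.sum_add_distrib, Finset.smul_sum,
    ← Finset.sum_sub_distrib]
  refine Finset.sum_congr rfl (fun s _ => ?_)
  simp only [VOA.jr]
  have e1 : n + (i : ℤ) - s = n - s + i := by ring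
  have e2 : m + l - (i : ℤ) - s = m - s + l - i := by ring
  have e3 : m + (i : ℤ) - s = m - s + i := by ring
  have e4 : n + l - (i : ℤ) - s = n - s + l - i := by ring
  rw [e1, e2, e3, e4]
  module

/-- Left side of the deformed Jacobi identity. -/
theorem VOA.left_side (v u w x : V) (hv0 : ∀ w, A.Y v 0 w = 0) (l m n : ℤ) (S I K : ℕ)
    (hS : ∀ s : ℕ, S ≤ s → A.Y v s u = 0) (hS' : ∀ s : ℕ, S ≤ s → A.Y v s w = 0)
    (hI : ∀ i : ℕ, I ≤ i → ∀ s : ℕ, A.Y (A.Y v s u) (l + i) w = 0)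
    (hK : S + I ≤ K) (hK' : ∀ k : ℕ, K ≤ k → ∀ i : ℕ, A.Y v k (A.Y u (l + i) w) = 0) :
    ∑ i ∈ range I, ((Ring.choose m i : ℤ) : ℂ) • A.F v (A.Y u (l + i) w) (m + n - i) x =
    ∑ s ∈ range S, cc s • (∑ i ∈ range I, A.jl u (A.Y v s w) x l m (n - s) i +
      ∑ j ∈ range (I + I), A.jl (A.Y v s u) w x l (m - s) n j) := by
  have h1 : ∀ i ∈ range I,
      ((Ring.choose m i : ℤ) : ℂ) • A.F v (A.Y u (l + i) w) (m + n - i) x =
      ∑ k ∈ range K, cc k • A.jl u (A.Y v k w) x l m (n - k) i +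
      ∑ k ∈ range K, ∑ s ∈ range (k + 1),
      (((Ring.choose m i : ℤ) : ℂ) * (cc k * ((k.choose s : ℕ) : ℂ))) •
        A.Y (A.Y (A.Y v s u) (k + (l + i) - s) w) (m + n - i - k) x := by
    intro i _
    rw [A.F_eq v _ K (fun k hk => hK' k hk i), ← Finset.sum_add_distrib, Finset.smul_sum]
    refine Finset.sum_congr rfl (fun k _ => ?_)
    have h2 := A.comm_nat v u w k (l + i)
    rw [sub_eq_iff_eq_add] at h2
    rw [h2]
    simp only [map_add, map_sum, map_smul, Pi.add_apply, Finset.sum_apply, Pi.smul_apply,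
      LinearMap.add_apply, LinearMap.sum_apply, LinearMap.smul_apply, VOA.jl, smul_add,
      Finset.smul_sum, smul_smul]
    have e1 : m + n - (i : ℤ) - k = m + (n - k) - i := by ring
    rw [e1, add_comm]
    congr 1
    rw [mul_comm]
  rw [Finset.sum_congr rfl h1, Finset.sum_add_distrib,
    A.part_two v u w x hv0 l m n S I K hS hI hK, Finset.sum_comm]
  simp only [smul_add, Finset.sum_add_distrib]
  congr 1
  rw [sum_range_le _ S K (by omega)]
  · simp only [Finset.smul_sum]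
  · intro k hk
    apply Finset.sum_eq_zero
    intro i _
    simp only [VOA.jl, hS' k hk, map_zero, Pi.zero_apply, LinearMap.zero_apply, smul_zero]

theorem VOA.F_jacobi (v u w x : V) (hv0 : ∀ w, A.Y v 0 w = 0) (l m n : ℤ) :
    ∀ᶠ L : ℕ in atTop,
    ∑ i ∈ range L, ((Ring.choose m i : ℤ) : ℂ) • A.F v (A.Y u (l + i) w) (m + n - i) x =
    ∑ i ∈ range L, ((-1 : ℂ) ^ i * ((Ring.choose l i : ℤ) : ℂ)) •
      ((A.Y u (m + l - i) (A.F v w (n + i) x) + A.F v u (m + l - i) (A.Y w (n + i) x)) -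
        (-1 : ℂ) ^ l • (A.Y w (n + l - i) (A.F v u (m + i) x) +
          A.F v w (n + l - i) (A.Y u (m + i) x))) := by
  obtain ⟨S1, hS1⟩ := A.trunc_zero v u
  obtain ⟨S2, hS2⟩ := A.trunc_zero v w
  obtain ⟨S, hS, hS'⟩ : ∃ S : ℕ, (∀ s : ℕ, S ≤ s → A.Y v s u = 0) ∧
      (∀ s : ℕ, S ≤ s → A.Y v s w = 0) :=
    ⟨max S1 S2, fun s hs => hS1 s ((le_max_left _ _).trans hs),
      fun s hs => hS2 s ((le_max_right _ _).trans hs)⟩
  choose f1 hf1 using fun s : ℕ => A.trunc_nat (A.Y v s u) w l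
  choose f2 hf2 using fun s : ℕ => A.trunc_nat u (A.Y v s w) l
  obtain ⟨I0, hI0⟩ := A.trunc_nat u w l
  obtain ⟨I, hI1, hI2, hI3⟩ : ∃ I : ℕ, (∀ i : ℕ, I ≤ i → ∀ s : ℕ, A.Y (A.Y v s u) (l + i) w = 0) ∧
      (∀ i : ℕ, I ≤ i → ∀ s : ℕ, A.Y u (l + i) (A.Y v s w) = 0) ∧
      (∀ i : ℕ, I ≤ i → A.Y u (l + i) w = 0) := by
    refine ⟨max ((range S).sup f1) (max ((range S).sup f2) I0), ?_, ?_, ?_⟩
    · intro i hi s
      by_cases hs : s < S
      · exact hf1 s i ((Finset.le_sup (f := f1) (Finset.mem_range.2 hs)).trans (by omega))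
      · rw [hS s (not_lt.1 hs)]
        simp
    · intro i hi s
      by_cases hs : s < S
      · exact hf2 s i ((Finset.le_sup (f := f2) (Finset.mem_range.2 hs)).trans (by omega))
      · rw [hS' s (not_lt.1 hs)]
        simp
    · intro i hi
      exact hI0 i (by omega)
  choose f3 hf3 using fun i : ℕ => A.trunc_zero v (A.Y u (l + i) w)
  obtain ⟨K, hK, hK'⟩ : ∃ K : ℕ, S + I ≤ K ∧
      ∀ k : ℕ, K ≤ k → ∀ i : ℕ, A.Y v k (A.Y u (l + i) w) = 0 := by
    refine ⟨max (S + I) ((range I).sup f3), le_max_left _ _, ?_⟩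
    intro k hk i
    by_cases hi : i < I
    · exact hf3 i k ((Finset.le_sup (f := f3) (Finset.mem_range.2 hi)).trans (by omega))
    · rw [hI3 i (not_lt.1 hi)]
      simp
  choose g1 hg1 using fun s : ℕ => A.trunc_nat (A.Y v s w) x (n - s)
  choose g2 hg2 using fun s : ℕ => A.trunc_nat (A.Y v s u) x (m - s)
  obtain ⟨J1, hJ1⟩ := A.trunc_nat w x n
  obtain ⟨J2, hJ2⟩ := A.trunc_nat u x m
  filter_upwards [eventually_ge_atTop (I + I), eventually_ge_atTop ((range S).sup g1),
    eventually_ge_atTop ((range S).sup g2), eventually_ge_atTop J1, eventually_ge_atTop J2]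
    with L hL1 hL2 hL3 hL4 hL5
  rw [A.right_side v u w x l m n S L hS hS']
  rw [sum_range_le (fun i : ℕ => ((Ring.choose m i : ℤ) : ℂ) •
    A.F v (A.Y u (l + i) w) (m + n - i) x) I L (by omega) ?_]
  · rw [A.left_side v u w x hv0 l m n S I K hS hS' hI1 hK hK']
    refine Finset.sum_congr rfl (fun s hs => ?_)
    congr 2
    · rw [← A.jac_range u (A.Y v s w) x l m (n - s) L L]
      · rw [sum_range_le _ I L (by omega)]
        intro i hi
        simp only [VOA.jl, hI2 i hi s, map_zero, Pi.zero_apply, LinearMap.zero_apply, smul_zero]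
      · intro i hi
        exact hI2 i (by omega) s
      · intro i hi
        exact hg1 s i ((Finset.le_sup (f := g1) hs).trans (by omega))
      · intro i hi
        exact hJ2 i (by omega)
    · rw [← A.jac_range (A.Y v s u) w x l (m - s) n L L]
      · rw [sum_range_le _ (I + I) L (by omega)]
        intro i hi
        simp only [VOA.jl, hI1 i (by omega) s, map_zero, Pi.zero_apply, LinearMap.zero_apply,
          smul_zero]
      · intro i hi
        exact hI1 i (by omega) s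
      · intro i hi
        exact hJ1 i (by omega)
      · intro i hi
        exact hg2 s i ((Finset.le_sup (f := g2) hs).trans (by omega))
  · intro i hi
    rw [hI3 i hi, A.F_eq v 0 0 (fun k _ => by simp)]
    simp

end Pool.Agent.VOAut
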