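import Pool.Agent.VOAut.Defs

set_option autoImplicit false

universe u

open Filter Finset

namespace Pool.Agent.VOAut

section sums

variable {M : Type*} [AddCommMonoid M]

theorem finsum_eq_range (f : ℕ → M) (N : ℕ) (h : ∀ i, N ≤ i → f i = 0) :
    ∑ᶠ i, f i = ∑ i ∈ range N, f i := by
  apply finsum_eq_sum_of_support_subset
  intro i hi
  simp only [Function.mem_support] at hi
  simp only [coe_range, Set.mem_Iio]
  by_contra hn
  exact hi (h i (not_lt.mp hn))

theorem finsum_ev (f : ℕ → M) (N : ℕ) (h : ∀ i, N ≤ i → f i = 0) :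
    ∀ᶠ K in atTop, ∑ᶠ i, f i = ∑ i ∈ range K, f i := by
  filter_upwards [eventually_ge_atTop N] with K hK
  exact finsum_eq_range f K (fun i hi => h i (hK.trans hi))

theorem finsum_eq_of_ev (f g : ℕ → M) (N N' : ℕ) (hf : ∀ i, N ≤ i → f i = 0)
    (hg : ∀ i, N' ≤ i → g i = 0)
    (h : ∀ᶠ K in atTop, ∑ i ∈ range K, f i = ∑ i ∈ range K, g i) :
    ∑ᶠ i, f i = ∑ᶠ i, g i := by
  obtain ⟨K, h1, h2, h3⟩ := ((finsum_ev f N hf).and ((finsum_ev g N' hg).and h)).exists
  rw [h1, h2, h3]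

end sums

variable {V : Type u} [AddCommGroup V] [Module ℂ V] (A : VOA V)

theorem VOA.trunc_nat (u v : V) (l : ℤ) : ∃ N : ℕ, ∀ i : ℕ, N ≤ i → A.Y u (l + i) v = 0 := by
  obtain ⟨N, hN⟩ := A.trunc u v
  refine ⟨(N - l).toNat, fun i hi => hN _ ?_⟩
  have := Int.self_le_toNat (N - l)
  omega

theorem AdmissibleModule.trunc_nat {A : VOA V} {M : Type u} [AddCommGroup M] [Module ℂ M]
    (X : AdmissibleModule A M) (u : V) (x : M) (l : ℤ) :
    ∃ N : ℕ, ∀ i : ℕ, N ≤ i → X.Y u (l + i) x = 0 := by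
  obtain ⟨N, hN⟩ := X.trunc u x
  refine ⟨(N - l).toNat, fun i hi => hN _ ?_⟩
  have := Int.self_le_toNat (N - l)
  omega

/-- Left side of the Jacobi identity. -/
noncomputable def VOA.jl (u v w : V) (l m n : ℤ) (i : ℕ) : V :=
  ((Ring.choose m i : ℤ) : ℂ) • A.Y (A.Y u (l + i) v) (m + n - i) w

/-- Right side of the Jacobi identity. -/
noncomputable def VOA.jr (u v w : V) (l m n : ℤ) (i : ℕ) : V :=
  ((-1 : ℂ) ^ i * ((Ring.choose l i : ℤ) : ℂ)) •
      (A.Y u (m + l - i) (A.Y v (n + i) w) - (-1 : ℂ) ^ l • A.Y v (n + l - i) (A.Y u (m + i) w))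

theorem VOA.jl_zero (u v w : V) (l : ℤ) :
    ∃ N : ℕ, ∀ m n : ℤ, ∀ i : ℕ, N ≤ i → A.jl u v w l m n i = 0 := by
  obtain ⟨N, hN⟩ := A.trunc_nat u v l
  refine ⟨N, fun m n i hi => ?_⟩
  unfold VOA.jl
  rw [hN i hi]
  simp

theorem VOA.jr_zero (u v w : V) (m n : ℤ) :
    ∃ N : ℕ, ∀ l : ℤ, ∀ i : ℕ, N ≤ i → A.jr u v w l m n i = 0 := by
  obtain ⟨N, hN⟩ := A.trunc_nat v w n
  obtain ⟨N', hN'⟩ := A.trunc_nat u w m
  refine ⟨max N N', fun l i hi => ?_⟩
  unfold VOA.jr
  rw [hN i ((le_max_left _ _).trans hi), hN' i ((le_max_right _ _).trans hi)]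
  simp

theorem VOA.jac_ev (u v w : V) (l m n : ℤ) :
    ∀ᶠ K : ℕ in atTop, ∑ i ∈ range K, A.jl u v w l m n i = ∑ i ∈ range K, A.jr u v w l m n i := by
  obtain ⟨N, hN⟩ := A.jl_zero u v w l
  obtain ⟨N', hN'⟩ := A.jr_zero u v w m n
  filter_upwards [finsum_ev _ N (hN m n), finsum_ev _ N' (hN' l)] with K h1 h2
  rw [← h1, ← h2]
  exact A.jacobi u v w l m n

/-- Commutator formula with an arbitrary integer mode on the left, eventual form. -/
theorem VOA.comm_ev (u v w : V) (m n : ℤ) :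
    ∀ᶠ K : ℕ in atTop, A.Y u m (A.Y v n w) - A.Y v n (A.Y u m w) =
      ∑ i ∈ range K, ((Ring.choose m i : ℤ) : ℂ) • A.Y (A.Y u i v) (m + n - i) w := by
  filter_upwards [A.jac_ev u v w 0 m n, eventually_ge_atTop 1] with K hK h1
  have hr : ∑ i ∈ range K, A.jr u v w 0 m n i =
      A.Y u m (A.Y v n w) - A.Y v n (A.Y u m w) := by
    rw [Finset.sum_eq_single 0]
    · simp [VOA.jr]
    · intro b _ hb
      unfold VOA.jr
      have : Ring.choose (0 : ℤ) b = 0 := by
        rw [Ring.choose_zero_pos _ (Nat.pos_of_ne_zero hb)]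
      simp [this]
    · intro h
      simp only [mem_range, not_lt, nonpos_iff_eq_zero] at h
      omega
  rw [← hr, ← hK]
  refine Finset.sum_congr rfl (fun i _ => ?_)
  simp [VOA.jl]

/-- Commutator formula for a nonnegative mode on the left. -/
theorem VOA.comm_nat (u v w : V) (k : ℕ) (n : ℤ) :
    A.Y u k (A.Y v n w) - A.Y v n (A.Y u k w) =
      ∑ i ∈ range (k + 1), ((k.choose i : ℕ) : ℂ) • A.Y (A.Y u i v) (k + n - i) w := by
  obtain ⟨K, h1, h2⟩ := ((A.comm_ev u v w k n).and (eventually_ge_atTop (k + 1))).exists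
  rw [h1]
  symm
  refine Finset.sum_subset_zero_on_sdiff (Finset.range_subset_range.2 h2) ?_ ?_
  · intro i hi
    rw [Finset.mem_sdiff, Finset.mem_range, Finset.mem_range, not_lt] at hi
    have : Ring.choose (k : ℤ) i = 0 := by
      rw [Ring.choose_natCast]
      rw [Nat.choose_eq_zero_of_lt (by omega)]
      simp
    simp [this]
  · intro i _
    have : Ring.choose (k : ℤ) i = (k.choose i : ℕ) := by
      rw [Ring.choose_natCast]
    rw [this]
    simp

/-- The zero mode of any vector is a derivation. -/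
theorem VOA.zero_mode (v u w : V) (n : ℤ) :
    A.Y v 0 (A.Y u n w) = A.Y (A.Y v 0 u) n w + A.Y u n (A.Y v 0 w) := by
  have := A.comm_nat v u w 0 n
  simp only [zero_add, range_one, sum_singleton, Nat.choose_self, Nat.cast_one, one_smul,
    Nat.cast_zero, sub_zero] at this
  rw [← this]
  abel

/-- Modes shift the grading. -/
theorem VOA.graded (k m i : ℤ) (u x : V) (hu : u ∈ A.gr k) (hx : x ∈ A.gr i) :
    A.Y u m x ∈ A.gr (i + k - m - 1) := by
  rw [A.mem_gr] at *
  have := A.comm_nat A.om u x 1 m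
  rw [Finset.sum_range_succ, Finset.sum_range_succ, Finset.sum_range_zero] at this
  simp only [Nat.cast_one, Nat.choose_zero_right, Nat.choose_self, Nat.cast_zero, one_smul,
    zero_add] at this
  rw [A.translation, hu, hx] at this
  simp only [map_smul, Pi.smul_apply, LinearMap.smul_apply, map_smul] at this
  have e1 : (1 : ℤ) + m - 0 - 1 = m := by ring
  have e2 : (1 : ℤ) + m - 1 = m := by ring
  rw [e1, e2] at this
  rw [sub_eq_iff_eq_add] at this
  rw [this]
  push_cast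
  module

end Pool.Agent.VOAut
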