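import Pool.Agent.VOAut.Faithful

set_option autoImplicit false

universe u

open Filter Finset

namespace Pool.Agent.VOAut

/-! ### Scaling maps -/

section scale

variable {M : Type*} [AddCommGroup M] [Module ℂ M] {E : ℂ → Submodule ℂ M}

/-- Multiplication by `c μ` on `E μ`. -/
noncomputable def scale (h : DirectSum.IsInternal E) (c : ℂ → ℂ) : M →ₗ[ℂ] M :=
  (DirectSum.toModule ℂ ℂ M (fun μ => c μ • (E μ).subtype)) ∘ₗ
    (LinearEquiv.ofBijective (DirectSum.coeLinearMap E) h).symm.toLinearMap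

theorem scale_of_mem (h : DirectSum.IsInternal E) (c : ℂ → ℂ) (μ : ℂ) (x : M) (hx : x ∈ E μ) :
    scale h c x = c μ • x := by
  unfold scale
  have : (LinearEquiv.ofBijective (DirectSum.coeLinearMap E) h).symm x =
      DirectSum.lof ℂ ℂ (fun μ => E μ) μ ⟨x, hx⟩ :=
    (LinearEquiv.symm_apply_eq _).2 (DirectSum.coeLinearMap_lof E μ ⟨x, hx⟩).symm
  rw [LinearMap.comp_apply, LinearEquiv.coe_coe, this, DirectSum.toModule_lof]
  rfl

end scale

variable {V : Type u} [AddCommGroup V] [Module ℂ V] (A : VOA V)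

/-- The generalized eigenspaces of a grading preserving operator span. -/
theorem VOA.iSup_gen (d : Module.End ℂ V) (hd : ∀ n : ℤ, ∀ x ∈ A.gr n, d x ∈ A.gr n) :
    ⨆ μ, d.maxGenEigenspace μ = ⊤ := by
  rw [eq_top_iff, ← A.iSup_gr]
  apply iSup_le
  intro n x hx
  have := A.findim n
  set f : Module.End ℂ (A.gr n) := d.restrict (hd n) with hf
  have h1 : (⟨x, hx⟩ : A.gr n) ∈ ⨆ μ, f.maxGenEigenspace μ := by
    rw [Module.End.iSup_maxGenEigenspace_eq_top]
    trivial
  refine Submodule.iSup_induction (fun μ => f.maxGenEigenspace μ)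
    (motive := fun y => (y : V) ∈ ⨆ μ, d.maxGenEigenspace μ) h1 ?_ ?_ ?_
  · intro μ y hy
    apply Submodule.mem_iSup_of_mem μ
    rw [Module.End.mem_maxGenEigenspace] at hy ⊢
    obtain ⟨k, hk⟩ := hy
    refine ⟨k, ?_⟩
    have key : ∀ (k : ℕ) (y : A.gr n), ((d - μ • (1 : Module.End ℂ V)) ^ k) (y : V) =
        (((f - μ • (1 : Module.End ℂ (A.gr n))) ^ k) y : A.gr n) := by
      intro k
      induction k with
      | zero => intro y; simp
      | succ k ih =>
        intro y
        rw [pow_succ, pow_succ, Module.End.mul_apply, Module.End.mul_apply, ← ih]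
        congr 1
    rw [key, hk]
    rfl
  · exact zero_mem _
  · intro a b ha hb
    exact add_mem ha hb

/-- Generalized eigenvectors of a derivation multiply. -/
theorem VOA.gen_mul (d : Module.End ℂ V)
    (hder : ∀ (u : V) (n : ℤ) (w : V), d (A.Y u n w) = A.Y (d u) n w + A.Y u n (d w))
    (a b : ℂ) (n : ℤ) : ∀ (N i j : ℕ), i + j = N → ∀ u w : V,
      ((d - a • (1 : Module.End ℂ V)) ^ i) u = 0 → ((d - b • (1 : Module.End ℂ V)) ^ j) w = 0 →
      ((d - (a + b) • (1 : Module.End ℂ V)) ^ N) (A.Y u n w) = 0 := by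
  intro N
  induction N with
  | zero =>
    intro i j hij u w hu hw
    obtain rfl : i = 0 := by omega
    simp only [pow_zero, Module.End.one_apply] at hu
    simp [hu]
  | succ N ih =>
    intro i j hij u w hu hw
    rcases Nat.eq_zero_or_pos i with hi | hi
    · subst hi
      simp only [pow_zero, Module.End.one_apply] at hu
      simp [hu]
    rcases Nat.eq_zero_or_pos j with hj | hj
    · subst hj
      simp only [pow_zero, Module.End.one_apply] at hw
      simp [hw]
    obtain ⟨i, rfl⟩ : ∃ i', i = i' + 1 := ⟨i - 1, by omega⟩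
    obtain ⟨j, rfl⟩ : ∃ j', j = j' + 1 := ⟨j - 1, by omega⟩
    have e : (d - (a + b) • (1 : Module.End ℂ V)) (A.Y u n w) =
        A.Y ((d - a • (1 : Module.End ℂ V)) u) n w +
        A.Y u n ((d - b • (1 : Module.End ℂ V)) w) := by
      simp only [LinearMap.sub_apply, LinearMap.smul_apply, Module.End.one_apply, hder, map_sub,
        map_smul, Pi.sub_apply, Pi.smul_apply]
      module
    rw [pow_succ, Module.End.mul_apply, e, map_add]
    rw [ih i (j + 1) (by omega) _ w ?_ hw, ih (i + 1) j (by omega) u _ hu ?_, add_zero]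
    · rw [pow_succ, Module.End.mul_apply] at hw
      exact hw
    · rw [pow_succ, Module.End.mul_apply] at hu
      exact hu

theorem VOA.internal_gen (d : Module.End ℂ V) (hd : ∀ n : ℤ, ∀ x ∈ A.gr n, d x ∈ A.gr n) :
    DirectSum.IsInternal d.maxGenEigenspace := by
  rw [DirectSum.isInternal_submodule_iff_iSupIndep_and_iSup_eq_top]
  exact ⟨d.independent_maxGenEigenspace, A.iSup_gen d hd⟩

/-- Bilinear induction. -/
theorem bilin_ext {E : ℂ → Submodule ℂ V} (hE : ⨆ μ, E μ = ⊤) (P : V → V → Prop)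
    (h0 : ∀ w, P 0 w) (h0' : ∀ u, P u 0) (hadd : ∀ u u' w, P u w → P u' w → P (u + u') w)
    (hadd' : ∀ u w w', P u w → P u w' → P u (w + w'))
    (h : ∀ a b, ∀ u ∈ E a, ∀ w ∈ E b, P u w) (u w : V) : P u w := by
  have hu : u ∈ ⨆ μ, E μ := by rw [hE]; trivial
  have hw : w ∈ ⨆ μ, E μ := by rw [hE]; trivial
  refine Submodule.iSup_induction E (motive := fun u => P u w) hu ?_ (h0 w)
    (fun a b ha hb => hadd a b w ha hb)
  intro a u hu
  exact Submodule.iSup_induction E (motive := fun w => P u w) hw (fun b w hw => h a b u hu w hw)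
    (h0' u) (fun a b ha hb => hadd' u a b ha hb)

theorem VOA.scale_mul (d : Module.End ℂ V)
    (hder : ∀ (u : V) (n : ℤ) (w : V), d (A.Y u n w) = A.Y (d u) n w + A.Y u n (d w))
    (hI : DirectSum.IsInternal d.maxGenEigenspace) (c : ℂ → ℂ) (hc : ∀ a b, c (a + b) = c a * c b)
    (u : V) (n : ℤ) (w : V) :
    scale hI c (A.Y u n w) = A.Y (scale hI c u) n (scale hI c w) := by
  revert w
  revert u
  apply bilin_ext hI.submodule_iSup_eq_top
  · intro w
    simp
  · intro u
    simp
  · intro u u' w h h'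
    simp only [map_add, Pi.add_apply, LinearMap.add_apply, h, h']
  · intro u w w' h h'
    simp only [map_add, h, h']
  · intro a b u hu w hw
    have h1 : A.Y u n w ∈ d.maxGenEigenspace (a + b) := by
      rw [Module.End.mem_maxGenEigenspace] at hu hw ⊢
      obtain ⟨i, hi⟩ := hu
      obtain ⟨j, hj⟩ := hw
      exact ⟨i + j, A.gen_mul d hder a b n (i + j) i j rfl u w hi hj⟩
    rw [scale_of_mem hI c a u hu, scale_of_mem hI c b w hw, scale_of_mem hI c (a + b) _ h1, hc]
    simp only [map_smul, Pi.smul_apply, LinearMap.smul_apply, smul_smul]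
    rw [mul_comm]

theorem scale_comp {M : Type*} [AddCommGroup M] [Module ℂ M] {E : ℂ → Submodule ℂ M}
    (hI : DirectSum.IsInternal E) (c c' : ℂ → ℂ) (h : ∀ a, c a * c' a = 1) (x : M) :
    scale hI c (scale hI c' x) = x := by
  have hx : x ∈ ⨆ μ, E μ := by rw [hI.submodule_iSup_eq_top]; trivial
  refine Submodule.iSup_induction E (motive := fun x => scale hI c (scale hI c' x) = x) hx ?_ ?_ ?_
  · intro a x hx
    rw [scale_of_mem hI c' a x hx, map_smul, scale_of_mem hI c a x hx, smul_smul, mul_comm, h,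
      one_smul]
  · simp
  · intro a b ha hb
    rw [map_add, map_add, ha, hb]

/-- The automorphism attached to the semisimple part of a derivation. -/
noncomputable def scaleEquiv {M : Type*} [AddCommGroup M] [Module ℂ M] {E : ℂ → Submodule ℂ M}
    (hI : DirectSum.IsInternal E) (t : ℂ) : M ≃ₗ[ℂ] M :=
  LinearEquiv.ofLinearMap (scale hI (fun a => Complex.exp (t * a)))
    (scale hI (fun a => Complex.exp (-(t * a))))
    (by
      apply LinearMap.ext
      intro x
      exact scale_comp hI _ _ (fun a => by rw [← Complex.exp_add]; simp) x)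
    (by
      apply LinearMap.ext
      intro x
      exact scale_comp hI _ _ (fun a => by rw [← Complex.exp_add]; simp) x)

theorem VOA.case_A (d : Module.End ℂ V)
    (hder : ∀ (u : V) (n : ℤ) (w : V), d (A.Y u n w) = A.Y (d u) n w + A.Y u n (d w))
    (hom : d A.om = 0) (hd : ∀ n : ℤ, ∀ x ∈ A.gr n, d x ∈ A.gr n)
    (μ : ℂ) (hμ : μ ≠ 0) (hE : d.maxGenEigenspace μ ≠ ⊥) :
    Infinite {g : V ≃ₗ[ℂ] V // A.IsAut g} := by
  have hI := A.internal_gen d hd
  obtain ⟨x, hx, hx0⟩ := Submodule.exists_mem_ne_zero_of_ne_bot hE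
  have haut : ∀ t : ℂ, A.IsAut (scaleEquiv hI t) := by
    intro t
    refine ⟨fun u n w => A.scale_mul d hder hI _ (fun a b => ?_) u n w, ?_⟩
    · rw [← Complex.exp_add]
      congr 1
      ring
    · have h0 : A.om ∈ d.maxGenEigenspace 0 := by
        rw [Module.End.mem_maxGenEigenspace]
        exact ⟨1, by simp [hom]⟩
      have := scale_of_mem hI (fun a => Complex.exp (t * a)) 0 A.om h0
      rw [mul_zero, Complex.exp_zero, one_smul] at this
      exact this
  refine Infinite.of_injective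
    (fun s : ℝ => (⟨scaleEquiv hI ((s : ℂ) / μ), haut _⟩ : {g : V ≃ₗ[ℂ] V // A.IsAut g})) ?_
  intro s s' hss
  have h1 : scaleEquiv hI ((s : ℂ) / μ) x = scaleEquiv hI ((s' : ℂ) / μ) x := by
    have := congrArg Subtype.val hss
    simp only at this
    rw [this]
  have h2 : ∀ t : ℂ, scaleEquiv hI t x = Complex.exp (t * μ) • x := by
    intro t
    exact scale_of_mem hI (fun a => Complex.exp (t * a)) μ x hx
  rw [h2, h2] at h1
  have h3 : Complex.exp ((s : ℂ) / μ * μ) = Complex.exp ((s' : ℂ) / μ * μ) := by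
    by_contra hne
    have : (Complex.exp ((s : ℂ) / μ * μ) - Complex.exp ((s' : ℂ) / μ * μ)) • x = 0 := by
      rw [sub_smul, h1, sub_self]
    rcases smul_eq_zero.1 this with h | h
    · exact hne (sub_eq_zero.1 h)
    · exact hx0 h
  rw [div_mul_cancel₀ _ hμ, div_mul_cancel₀ _ hμ, ← Complex.ofReal_exp, ← Complex.ofReal_exp] at h3
  exact Real.exp_injective (Complex.ofReal_injective h3)

/-! ### Exponentials of locally nilpotent derivations -/

section nilp

variable {M : Type*} [AddCommGroup M] [Module ℂ M]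

/-- The exponential series. -/
noncomputable def ex (d : Module.End ℂ M) (t : ℂ) (x : M) : M :=
  ∑ᶠ j : ℕ, (t ^ j / (j.factorial : ℂ)) • (d ^ j) x

theorem pow_zero_of_le (d : Module.End ℂ M) (x : M) (N : ℕ) (h : (d ^ N) x = 0) (j : ℕ)
    (hj : N ≤ j) : (d ^ j) x = 0 := by
  obtain ⟨k, rfl⟩ := Nat.exists_eq_add_of_le hj
  rw [add_comm, pow_add, Module.End.mul_apply, h, map_zero]

theorem ex_eq (d : Module.End ℂ M) (t : ℂ) (x : M) (N : ℕ) (h : (d ^ N) x = 0) :
    ex d t x = ∑ j ∈ range N, (t ^ j / (j.factorial : ℂ)) • (d ^ j) x := by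
  unfold ex
  apply finsum_eq_range
  intro i hi
  rw [pow_zero_of_le d x N h i hi, smul_zero]

theorem ex_add_right (d : Module.End ℂ M) (hN : ∀ x, ∃ N : ℕ, (d ^ N) x = 0) (t : ℂ) (x y : M) :
    ex d t (x + y) = ex d t x + ex d t y := by
  obtain ⟨N, hx⟩ := hN x
  obtain ⟨N', hy⟩ := hN y
  have hx' := pow_zero_of_le d x N hx (max N N') (le_max_left _ _)
  have hy' := pow_zero_of_le d y N' hy (max N N') (le_max_right _ _)
  rw [ex_eq d t x _ hx', ex_eq d t y _ hy', ex_eq d t (x + y) (max N N') (by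
    rw [map_add, hx', hy', add_zero]), ← Finset.sum_add_distrib]
  refine Finset.sum_congr rfl (fun j _ => ?_)
  rw [map_add, smul_add]

theorem ex_smul_right (d : Module.End ℂ M) (hN : ∀ x, ∃ N : ℕ, (d ^ N) x = 0) (t c : ℂ) (x : M) :
    ex d t (c • x) = c • ex d t x := by
  obtain ⟨N, hx⟩ := hN x
  rw [ex_eq d t x N hx, ex_eq d t (c • x) N (by rw [map_smul, hx, smul_zero]), Finset.smul_sum]
  refine Finset.sum_congr rfl (fun j _ => ?_)
  rw [map_smul, smul_comm]

theorem choose_fact (p : ℕ × ℕ) (k : ℕ) (hp : p.1 + p.2 = k) :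
    k.choose p.1 * p.1.factorial * p.2.factorial = k.factorial := by
  have h := Nat.choose_mul_factorial_mul_factorial (n := k) (k := p.1) (by omega)
  have e : k - p.1 = p.2 := by omega
  rw [e] at h
  exact h

theorem binom_div (s t : ℂ) (k : ℕ) :
    ∑ p ∈ Finset.HasAntidiagonal.antidiagonal k,
      (s ^ p.1 / (p.1.factorial : ℂ)) * (t ^ p.2 / (p.2.factorial : ℂ)) =
      (s + t) ^ k / (k.factorial : ℂ) := by
  rw [(Commute.all s t).add_pow', Finset.sum_div]
  refine Finset.sum_congr rfl (fun p hp => ?_)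
  have hp' : p.1 + p.2 = k := Finset.HasAntidiagonal.mem_antidiagonal.1 hp
  have h1 := choose_fact p k hp'
  have h2 : ((k.choose p.1 : ℕ) : ℂ) * (p.1.factorial : ℂ) * (p.2.factorial : ℂ) =
      (k.factorial : ℂ) := by exact_mod_cast h1
  have h3 : (p.1.factorial : ℂ) ≠ 0 := by exact_mod_cast p.1.factorial_ne_zero
  have h4 : (p.2.factorial : ℂ) ≠ 0 := by exact_mod_cast p.2.factorial_ne_zero
  have h5 : (k.factorial : ℂ) ≠ 0 := by exact_mod_cast k.factorial_ne_zero
  rw [nsmul_eq_mul]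
  field_simp
  rw [← h2]
  ring

theorem ex_add (d : Module.End ℂ M) (hN : ∀ x, ∃ N : ℕ, (d ^ N) x = 0) (s t : ℂ) (x : M) :
    ex d s (ex d t x) = ex d (s + t) x := by
  obtain ⟨N, hx⟩ := hN x
  have h1 : (d ^ N) (ex d t x) = 0 := by
    rw [ex_eq d t x N hx, map_sum]
    apply Finset.sum_eq_zero
    intro j _
    rw [map_smul, ← Module.End.mul_apply, ← pow_add,
      pow_zero_of_le d x N hx (N + j) (by omega), smul_zero]
  rw [ex_eq d s _ N h1, ex_eq d (s + t) x (N + N) (pow_zero_of_le d x N hx _ (by omega))]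
  have h2 : ∀ j ∈ range N, (s ^ j / (j.factorial : ℂ)) • (d ^ j) (ex d t x) =
      ∑ i ∈ range N, ((s ^ j / (j.factorial : ℂ)) * (t ^ i / (i.factorial : ℂ))) •
        (d ^ (j + i)) x := by
    intro j _
    rw [ex_eq d t x N hx, map_sum, Finset.smul_sum]
    refine Finset.sum_congr rfl (fun i _ => ?_)
    rw [map_smul, ← Module.End.mul_apply, ← pow_add, smul_smul]
  rw [Finset.sum_congr rfl h2, ← diag (fun j i =>
    ((s ^ j / (j.factorial : ℂ)) * (t ^ i / (i.factorial : ℂ))) • (d ^ (j + i)) x) N N (N + N)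
    ?_ le_rfl]
  · refine Finset.sum_congr rfl (fun k _ => ?_)
    rw [← binom_div, Finset.sum_smul]
    refine Finset.sum_congr rfl (fun p hp => ?_)
    have hp' : p.1 + p.2 = k := Finset.HasAntidiagonal.mem_antidiagonal.1 hp
    rw [hp']
  · intro a b h
    rw [pow_zero_of_le d x N hx (a + b) (by omega), smul_zero]

theorem ex_zero (d : Module.End ℂ M) (hN : ∀ x, ∃ N : ℕ, (d ^ N) x = 0) (x : M) :
    ex d 0 x = x := by
  obtain ⟨N, hx⟩ := hN x
  rw [ex_eq d 0 x (N + 1) (pow_zero_of_le d x N hx _ (by omega)), Finset.sum_eq_single 0]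
  · simp
  · intro b _ hb
    rw [zero_pow hb]
    simp
  · intro h
    simp at h

/-- The exponential of a locally nilpotent operator as a linear equivalence. -/
noncomputable def exEquiv (d : Module.End ℂ M) (hN : ∀ x, ∃ N : ℕ, (d ^ N) x = 0) (t : ℂ) :
    M ≃ₗ[ℂ] M where
  toFun := ex d t
  map_add' := ex_add_right d hN t
  map_smul' := ex_smul_right d hN t
  invFun := ex d (-t)
  left_inv x := by
    rw [ex_add d hN, neg_add_cancel, ex_zero d hN]
  right_inv x := by
    rw [ex_add d hN, add_neg_cancel, ex_zero d hN]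

end nilp

/-- Leibniz rule. -/
theorem VOA.leibniz (d : Module.End ℂ V)
    (hder : ∀ (u : V) (n : ℤ) (w : V), d (A.Y u n w) = A.Y (d u) n w + A.Y u n (d w))
    (n : ℤ) (k : ℕ) (u w : V) : (d ^ k) (A.Y u n w) =
      ∑ p ∈ Finset.HasAntidiagonal.antidiagonal k,
        (k.choose p.1) • A.Y ((d ^ p.1) u) n ((d ^ p.2) w) := by
  induction k with
  | zero => simp
  | succ k ih =>
    rw [Finset.sum_antidiagonal_choose_succ_nsmul
      (fun i j => A.Y ((d ^ i) u) n ((d ^ j) w)) k]
    rw [pow_succ', Module.End.mul_apply, ih, map_sum, ← Finset.sum_add_distrib]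
    refine Finset.sum_congr rfl (fun p hp => ?_)
    have hp' : p.1 + p.2 = k := Finset.HasAntidiagonal.mem_antidiagonal.1 hp
    have hs : k.choose p.2 = k.choose p.1 := by
      rw [← hp', Nat.choose_symm_add]
    rw [map_nsmul, hder, hs, pow_succ', pow_succ', Module.End.mul_apply, Module.End.mul_apply,
      smul_add, add_comm]

theorem VOA.ex_mul (d : Module.End ℂ V)
    (hder : ∀ (u : V) (n : ℤ) (w : V), d (A.Y u n w) = A.Y (d u) n w + A.Y u n (d w))
    (hN : ∀ x, ∃ N : ℕ, (d ^ N) x = 0) (t : ℂ) (u : V) (n : ℤ) (w : V) :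
    ex d t (A.Y u n w) = A.Y (ex d t u) n (ex d t w) := by
  obtain ⟨N1, hu⟩ := hN u
  obtain ⟨N2, hw⟩ := hN w
  obtain ⟨N3, huw⟩ := hN (A.Y u n w)
  set N := max N1 (max N2 N3) with hNN
  have hu' := pow_zero_of_le d u N1 hu N (by omega)
  have hw' := pow_zero_of_le d w N2 hw N (by omega)
  rw [ex_eq d t u N hu', ex_eq d t w N hw',
    ex_eq d t (A.Y u n w) (N + N) (pow_zero_of_le d _ N3 huw _ (by omega))]
  have h2 : A.Y (∑ j ∈ range N, (t ^ j / (j.factorial : ℂ)) • (d ^ j) u) n
      (∑ j ∈ range N, (t ^ j / (j.factorial : ℂ)) • (d ^ j) w) =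
      ∑ i ∈ range N, ∑ j ∈ range N, ((t ^ i / (i.factorial : ℂ)) *
        (t ^ j / (j.factorial : ℂ))) • A.Y ((d ^ i) u) n ((d ^ j) w) := by
    simp only [map_sum, map_smul, Finset.sum_apply, Pi.smul_apply, LinearMap.sum_apply,
      LinearMap.smul_apply, Finset.smul_sum, smul_smul]
    rw [Finset.sum_comm]
    refine Finset.sum_congr rfl (fun i _ => Finset.sum_congr rfl (fun j _ => ?_))
    rw [mul_comm]
  rw [h2, ← diag (fun i j => ((t ^ i / (i.factorial : ℂ)) *
        (t ^ j / (j.factorial : ℂ))) • A.Y ((d ^ i) u) n ((d ^ j) w)) N N (N + N) ?_ le_rfl]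
  · refine Finset.sum_congr rfl (fun k _ => ?_)
    rw [A.leibniz d hder, Finset.smul_sum]
    refine Finset.sum_congr rfl (fun p hp => ?_)
    have hp' : p.1 + p.2 = k := Finset.HasAntidiagonal.mem_antidiagonal.1 hp
    have h1 := choose_fact p k hp'
    have h2 : ((k.choose p.1 : ℕ) : ℂ) * (p.1.factorial : ℂ) * (p.2.factorial : ℂ) =
        (k.factorial : ℂ) := by exact_mod_cast h1
    have h3 : (p.1.factorial : ℂ) ≠ 0 := by exact_mod_cast p.1.factorial_ne_zero
    have h4 : (p.2.factorial : ℂ) ≠ 0 := by exact_mod_cast p.2.factorial_ne_zero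
    have h5 : (k.factorial : ℂ) ≠ 0 := by exact_mod_cast k.factorial_ne_zero
    rw [← Nat.cast_smul_eq_nsmul ℂ, smul_smul]
    congr 1
    rw [← hp', pow_add, hp']
    field_simp
    rw [← h2]
    ring
  · rintro i j (h | h)
    · rw [pow_zero_of_le d u N hu' i h]
      simp
    · rw [pow_zero_of_le d w N hw' j h]
      simp

theorem VOA.case_B (d : Module.End ℂ V)
    (hder : ∀ (u : V) (n : ℤ) (w : V), d (A.Y u n w) = A.Y (d u) n w + A.Y u n (d w))
    (hom : d A.om = 0) (hN : ∀ x, ∃ N : ℕ, (d ^ N) x = 0) (hd0 : d ≠ 0) :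
    Infinite {g : V ≃ₗ[ℂ] V // A.IsAut g} := by
  have haut : ∀ t : ℂ, A.IsAut (exEquiv d hN t) := by
    intro t
    refine ⟨fun u n w => A.ex_mul d hder hN t u n w, ?_⟩
    show ex d t A.om = A.om
    rw [ex_eq d t A.om 1 (by simpa using hom)]
    simp
  -- a vector with `d y ≠ 0 = d (d y)`
  obtain ⟨x, hx⟩ : ∃ x, d x ≠ 0 := by
    by_contra h
    push Not at h
    exact hd0 (LinearMap.ext h)
  classical
  have hex := hN (d x)
  set m := Nat.find hex with hm
  have hm1 : (d ^ m) (d x) = 0 := Nat.find_spec hex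
  have hm0 : m ≠ 0 := by
    intro h
    rw [h] at hm1
    exact hx (by simpa using hm1)
  obtain ⟨k, hk⟩ := Nat.exists_eq_succ_of_ne_zero hm0
  have hk1 : (d ^ k) (d x) ≠ 0 := Nat.find_min hex (by omega)
  set y := (d ^ k) x with hy
  have hy1 : d y ≠ 0 := by
    rw [hy, ← Module.End.mul_apply, ← pow_succ', pow_succ, Module.End.mul_apply]
    exact hk1
  have hy2 : (d ^ 2) y = 0 := by
    rw [hy, ← Module.End.mul_apply, ← pow_add]
    have e : 2 + k = m + 1 := by omega
    rw [e, pow_succ, Module.End.mul_apply]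
    exact hm1
  refine Infinite.of_injective
    (fun t : ℂ => (⟨exEquiv d hN t, haut t⟩ : {g : V ≃ₗ[ℂ] V // A.IsAut g})) ?_
  intro s s' hss
  have h1 : exEquiv d hN s y = exEquiv d hN s' y := by
    have := congrArg Subtype.val hss
    simp only at this
    rw [this]
  have h2 : ∀ t : ℂ, exEquiv d hN t y = y + t • d y := by
    intro t
    show ex d t y = _
    rw [ex_eq d t y 2 hy2, Finset.sum_range_succ, Finset.sum_range_succ, Finset.sum_range_zero]
    simp
  rw [h2, h2] at h1
  have h3 : (s - s') • d y = 0 := by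
    rw [sub_smul, sub_eq_zero]
    exact add_left_cancel h1
  rcases smul_eq_zero.1 h3 with h | h
  · exact sub_eq_zero.1 h
  · exact absurd h hy1

theorem VOA.aut_infinite_of_derivation (d : Module.End ℂ V)
    (hder : ∀ (u : V) (n : ℤ) (w : V), d (A.Y u n w) = A.Y (d u) n w + A.Y u n (d w))
    (hom : d A.om = 0) (hd : ∀ n : ℤ, ∀ x ∈ A.gr n, d x ∈ A.gr n) (hd0 : d ≠ 0) :
    Infinite {g : V ≃ₗ[ℂ] V // A.IsAut g} := by
  by_cases h : ∃ μ : ℂ, μ ≠ 0 ∧ d.maxGenEigenspace μ ≠ ⊥
  · obtain ⟨μ, hμ, hE⟩ := h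
    exact A.case_A d hder hom hd μ hμ hE
  · push Not at h
    apply A.case_B d hder hom _ hd0
    intro x
    have hx : x ∈ ⨆ μ, d.maxGenEigenspace μ := by rw [A.iSup_gen d hd]; trivial
    have h0 : ⨆ μ, d.maxGenEigenspace μ = d.maxGenEigenspace 0 := by
      apply le_antisymm
      · apply iSup_le
        intro μ
        by_cases hμ : μ = 0
        · rw [hμ]
        · rw [h μ hμ]
          exact bot_le
      · exact le_iSup (fun μ => d.maxGenEigenspace μ) 0
    rw [h0, Module.End.mem_maxGenEigenspace] at hx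
    obtain ⟨k, hk⟩ := hx
    exact ⟨k, by simpa using hk⟩

end Pool.Agent.VOAut
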