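import Mathlib

/-!
# Vertex operator algebras, admissible modules, rationality, automorphisms

`Y u n` is the mode `u_n`, so `Y(u,z) = ∑ u_n z^(-n-1)`.  The Jacobi identity is
stated in its component form (Borcherds' identity) for all integers `l, m, n`;
all sums that occur are finite.
-/

set_option autoImplicit false

universe u

namespace Pool.Agent.VOAut

/-- A vertex operator algebra over the complex numbers with underlying space `V`. -/
structure VOA (V : Type u) [AddCommGroup V] [Module ℂ V] where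
  /-- the modes: `Y u n` is `u_n` -/
  Y : V →ₗ[ℂ] (ℤ → Module.End ℂ V)
  /-- the vacuum vector -/
  vac : V
  /-- the conformal vector -/
  om : V
  /-- the central charge -/
  c : ℂ
  /-- the homogeneous pieces -/
  gr : ℤ → Submodule ℂ V
  trunc : ∀ u v : V, ∃ N : ℤ, ∀ n : ℤ, N ≤ n → Y u n v = 0
  vacuum : ∀ (n : ℤ) (v : V), Y vac n v = if n = -1 then v else 0
  creation : ∀ (u : V) (n : ℤ), 0 ≤ n → Y u n vac = 0
  creation_neg_one : ∀ u : V, Y u (-1) vac = u
  jacobi : ∀ (u v w : V) (l m n : ℤ),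
    (∑ᶠ i : ℕ, ((Ring.choose m i : ℤ) : ℂ) • Y (Y u (l + i) v) (m + n - i) w) =
    ∑ᶠ i : ℕ, ((-1 : ℂ) ^ i * ((Ring.choose l i : ℤ) : ℂ)) •
      (Y u (m + l - i) (Y v (n + i) w) - (-1 : ℂ) ^ l • Y v (n + l - i) (Y u (m + i) w))
  virasoro : ∀ (m n : ℤ) (v : V),
    Y om (m + 1) (Y om (n + 1) v) - Y om (n + 1) (Y om (m + 1) v) =
      ((m : ℂ) - n) • Y om (m + n + 1) v +
        (if m + n = 0 then ((m : ℂ) ^ 3 - m) / 12 * c else 0) • v
  translation : ∀ (u : V) (n : ℤ), Y (Y om 0 u) n = (-(n : ℂ)) • Y u (n - 1)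
  mem_gr : ∀ (n : ℤ) (v : V), v ∈ gr n ↔ Y om 1 v = (n : ℂ) • v
  internal : DirectSum.IsInternal gr
  findim : ∀ n : ℤ, FiniteDimensional ℂ (gr n)
  bounded : ∃ N : ℤ, ∀ n : ℤ, n < N → gr n = ⊥

/-- An admissible module of a vertex operator algebra: a weak module with a grading by the
natural numbers (written as a grading by the integers with zero pieces in negative degrees)
such that `u_m` maps the piece of degree `i` to the piece of degree `i + wt u - m - 1`. -/
structure AdmissibleModule {V : Type u} [AddCommGroup V] [Module ℂ V] (A : VOA V)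
    (M : Type u) [AddCommGroup M] [Module ℂ M] where
  /-- the modes -/
  Y : V →ₗ[ℂ] (ℤ → Module.End ℂ M)
  /-- the homogeneous pieces -/
  gr : ℤ → Submodule ℂ M
  trunc : ∀ (u : V) (x : M), ∃ N : ℤ, ∀ n : ℤ, N ≤ n → Y u n x = 0
  vacuum : ∀ (n : ℤ) (x : M), Y A.vac n x = if n = -1 then x else 0
  jacobi : ∀ (u v : V) (x : M) (l m n : ℤ),
    (∑ᶠ i : ℕ, ((Ring.choose m i : ℤ) : ℂ) • Y (A.Y u (l + i) v) (m + n - i) x) =
    ∑ᶠ i : ℕ, ((-1 : ℂ) ^ i * ((Ring.choose l i : ℤ) : ℂ)) •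
      (Y u (m + l - i) (Y v (n + i) x) - (-1 : ℂ) ^ l • Y v (n + l - i) (Y u (m + i) x))
  internal : DirectSum.IsInternal gr
  nonneg : ∀ n : ℤ, n < 0 → gr n = ⊥
  graded : ∀ (k m i : ℤ) (u : V) (x : M), u ∈ A.gr k → x ∈ gr i →
    Y u m x ∈ gr (i + k - m - 1)

variable {V : Type u} [AddCommGroup V] [Module ℂ V]

/-- Admissible submodules: stable under all modes and graded. -/
def AdmissibleModule.IsSub {A : VOA V} {M : Type u} [AddCommGroup M] [Module ℂ M]
    (X : AdmissibleModule A M) (N : Submodule ℂ M) : Prop :=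
  (∀ (u : V) (n : ℤ) (x : M), x ∈ N → X.Y u n x ∈ N) ∧ N = ⨆ n : ℤ, N ⊓ X.gr n

/-- Irreducible admissible submodules. -/
def AdmissibleModule.IsIrr {A : VOA V} {M : Type u} [AddCommGroup M] [Module ℂ M]
    (X : AdmissibleModule A M) (N : Submodule ℂ M) : Prop :=
  X.IsSub N ∧ N ≠ ⊥ ∧ ∀ N' : Submodule ℂ M, N' ≤ N → X.IsSub N' → N' = ⊥ ∨ N' = N

/-- Rationality: every admissible module is a direct sum of irreducible admissible modules. -/
def VOA.Rational (A : VOA V) : Prop :=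
  ∀ (M : Type u) [AddCommGroup M] [Module ℂ M] (X : AdmissibleModule A M),
    ∃ (ι : Type u) (N : ι → Submodule ℂ M),
      (∀ i, X.IsIrr (N i)) ∧ iSupIndep N ∧ ⨆ i, N i = ⊤

/-- Automorphisms: linear bijections compatible with all modes that fix the conformal vector. -/
def VOA.IsAut (A : VOA V) (g : V ≃ₗ[ℂ] V) : Prop :=
  (∀ (u : V) (n : ℤ) (w : V), g (A.Y u n w) = A.Y (g u) n (g w)) ∧ g A.om = A.om

end Pool.Agent.VOAut
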