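import Pool.Agent.VOAut.Deform

set_option autoImplicit false

universe u

open Filter Finset

namespace Pool.Agent.VOAut

variable {V : Type u} [AddCommGroup V] [Module ℂ V] (A : VOA V)

/-- Modes of the self-extension of the adjoint module. -/
noncomputable def VOA.EY (v : V) : V →ₗ[ℂ] (ℤ → Module.End ℂ (V × V)) where
  toFun u n :=
    { toFun := fun p => (A.Y u n p.1, A.Y u n p.2 + A.F v u n p.1)
      map_add' := by
        intro p q
        simp only [Prod.fst_add, Prod.snd_add, map_add, A.F_add_right, Prod.mk_add_mk]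
        congr 1
        abel
      map_smul' := by
        intro c p
        simp only [Prod.smul_fst, Prod.smul_snd, map_smul, A.F_smul_right, RingHom.id_apply,
          Prod.smul_mk, smul_add] }
  map_add' u u' := by
    funext n
    apply LinearMap.ext
    intro p
    apply Prod.ext
    · simp
    · simp only [LinearMap.coe_mk, AddHom.coe_mk, Pi.add_apply, LinearMap.add_apply, Prod.snd_add,
        map_add, A.F_add_left]
      abel
  map_smul' c u := by
    funext n
    apply LinearMap.ext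
    intro p
    apply Prod.ext
    · simp
    · simp only [LinearMap.coe_mk, AddHom.coe_mk, Pi.smul_apply, LinearMap.smul_apply,
        Prod.smul_snd, map_smul, A.F_smul_left, RingHom.id_apply, smul_add]

theorem VOA.EY_apply (v u : V) (n : ℤ) (p : V × V) :
    A.EY v u n p = (A.Y u n p.1, A.Y u n p.2 + A.F v u n p.1) := rfl

theorem VOA.F_zero_of (v u : V) (n : ℤ) (x : V) (h : ∀ k : ℕ, A.Y v k u = 0) :
    A.F v u n x = 0 := by
  rw [A.F_eq v u 0 (fun k _ => h k)]
  simp

theorem VOA.eigen (n : ℤ) : A.gr n = Module.End.eigenspace (A.Y A.om 1) (n : ℂ) := by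
  ext x
  rw [A.mem_gr, Module.End.mem_eigenspace_iff]

/-- The operator `L(0)` on pairs. -/
noncomputable def VOA.L0 : Module.End ℂ (V × V) :=
  (A.Y A.om 1).prodMap (A.Y A.om 1)

theorem VOA.pair_eigen (n : ℤ) :
    (A.gr n).prod (A.gr n) = Module.End.eigenspace A.L0 (n : ℂ) := by
  ext x
  rw [Submodule.mem_prod, A.mem_gr, A.mem_gr, Module.End.mem_eigenspace_iff, VOA.L0,
    LinearMap.prodMap_apply, Prod.ext_iff]
  rfl

theorem VOA.iSup_gr : ⨆ n, A.gr n = ⊤ := A.internal.submodule_iSup_eq_top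

theorem VOA.pair_internal : DirectSum.IsInternal (fun n : ℤ => (A.gr n).prod (A.gr n)) := by
  rw [DirectSum.isInternal_submodule_iff_iSupIndep_and_iSup_eq_top]
  constructor
  · have h := (Module.End.eigenspaces_iSupIndep A.L0).comp (f := fun n : ℤ => (n : ℂ))
      Int.cast_injective
    have e : (fun n : ℤ => (A.gr n).prod (A.gr n)) =
        (Module.End.eigenspace A.L0) ∘ fun n : ℤ => (n : ℂ) := by
      funext n
      exact A.pair_eigen n
    rw [e]
    exact h
  · rw [eq_top_iff]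
    rintro ⟨x, y⟩ -
    have hx : ∀ x : V, ((x, 0) : V × V) ∈ ⨆ n : ℤ, (A.gr n).prod (A.gr n) := by
      intro x
      have hx : x ∈ ⨆ n, A.gr n := by rw [A.iSup_gr]; trivial
      refine Submodule.iSup_induction A.gr
        (motive := fun x => ((x, 0) : V × V) ∈ ⨆ n : ℤ, (A.gr n).prod (A.gr n)) hx ?_ ?_ ?_
      · intro n x hx
        exact Submodule.mem_iSup_of_mem n ⟨hx, zero_mem _⟩
      · exact zero_mem _
      · intro a b ha hb
        have := add_mem ha hb
        simpa using this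
    have hy : ∀ x : V, ((0, x) : V × V) ∈ ⨆ n : ℤ, (A.gr n).prod (A.gr n) := by
      intro x
      have hx : x ∈ ⨆ n, A.gr n := by rw [A.iSup_gr]; trivial
      refine Submodule.iSup_induction A.gr
        (motive := fun x => ((0, x) : V × V) ∈ ⨆ n : ℤ, (A.gr n).prod (A.gr n)) hx ?_ ?_ ?_
      · intro n x hx
        exact Submodule.mem_iSup_of_mem n ⟨zero_mem _, hx⟩
      · exact zero_mem _
      · intro a b ha hb
        have := add_mem ha hb
        simpa using this
    have := add_mem (hx x) (hy y)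
    simpa using this

theorem VOA.F_graded (v : V) (hv : v ∈ A.gr 1) (k m i : ℤ) (u x : V) (hu : u ∈ A.gr k)
    (hx : x ∈ A.gr i) : A.F v u m x ∈ A.gr (i + k - m - 1) := by
  obtain ⟨N, hN⟩ := A.trunc_zero v u
  rw [A.F_eq v u N hN]
  refine Submodule.sum_mem _ (fun s _ => Submodule.smul_mem _ _ ?_)
  have h1 := A.graded 1 s k v u hv hu
  have h2 := A.graded _ (m - s) i _ x h1 hx
  have e : i + (k + 1 - s - 1) - (m - s) - 1 = i + k - m - 1 := by ring
  rwa [e] at h2

theorem VOA.EY_trunc (v u : V) (p : V × V) :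
    ∃ N : ℕ, ∀ n : ℤ, (N : ℤ) ≤ n → A.EY v u n p = 0 := by
  obtain ⟨N1, h1⟩ := A.trunc_nat u p.1 0
  obtain ⟨N2, h2⟩ := A.trunc_nat u p.2 0
  obtain ⟨N3, h3⟩ := A.F_trunc v u p.1 0
  refine ⟨max N1 (max N2 N3), fun n hn => ?_⟩
  obtain ⟨n, rfl⟩ : ∃ n' : ℕ, n = n' := ⟨n.toNat, by omega⟩
  have hn' : max N1 (max N2 N3) ≤ n := by exact_mod_cast hn
  have h1' := h1 n (by omega)
  have h2' := h2 n (by omega)
  have h3' := h3 n (by omega)
  rw [zero_add] at h1' h2' h3'
  rw [A.EY_apply, h1', h2', h3']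
  simp

theorem VOA.EY_trunc_nat (v u : V) (p : V × V) (l : ℤ) :
    ∃ N : ℕ, ∀ i : ℕ, N ≤ i → A.EY v u (l + i) p = 0 := by
  obtain ⟨N, hN⟩ := A.EY_trunc v u p
  exact ⟨(N - l).toNat, fun i hi => hN _ (by omega)⟩

theorem VOA.EY_jacobi (v : V) (hv0 : ∀ w, A.Y v 0 w = 0) (u w : V) (p : V × V) (l m n : ℤ) :
    (∑ᶠ i : ℕ, ((Ring.choose m i : ℤ) : ℂ) • A.EY v (A.Y u (l + i) w) (m + n - i) p) =
    ∑ᶠ i : ℕ, ((-1 : ℂ) ^ i * ((Ring.choose l i : ℤ) : ℂ)) •
      (A.EY v u (m + l - i) (A.EY v w (n + i) p) -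
        (-1 : ℂ) ^ l • A.EY v w (n + l - i) (A.EY v u (m + i) p)) := by
  obtain ⟨N1, h1⟩ := A.trunc_nat u w l
  obtain ⟨N2, h2⟩ := A.EY_trunc_nat v w p n
  obtain ⟨N3, h3⟩ := A.EY_trunc_nat v u p m
  apply finsum_eq_of_ev _ _ N1 (max N2 N3)
  · intro i hi
    rw [h1 i hi]
    simp
  · intro i hi
    rw [h2 i (by omega), h3 i (by omega)]
    simp
  · filter_upwards [A.jac_ev u w p.1 l m n, A.jac_ev u w p.2 l m n,
      A.F_jacobi v u w p.1 hv0 l m n] with K e1 e2 e3
    apply Prod.ext
    · simp only [Prod.fst_sum, Prod.smul_fst, Prod.fst_sub, A.EY_apply]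
      exact e1
    · simp only [Prod.snd_sum, Prod.smul_snd, Prod.snd_sub, A.EY_apply, map_add]
      have e4 := congrArg₂ (· + ·) e2 e3
      simp only [← Finset.sum_add_distrib, VOA.jl, VOA.jr] at e4
      refine (Finset.sum_congr rfl (fun i _ => ?_)).trans (e4.trans
        (Finset.sum_congr rfl (fun i _ => ?_)))
      · rw [smul_add]
      · module

theorem VOA.shift_internal (N : ℤ) :
    DirectSum.IsInternal (fun n : ℤ => (A.gr (n + N)).prod (A.gr (n + N))) := by
  have h := A.pair_internal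
  rw [DirectSum.isInternal_submodule_iff_iSupIndep_and_iSup_eq_top] at h ⊢
  constructor
  · exact h.1.comp (add_left_injective N)
  · rw [← h.2]
    exact (Equiv.addRight N).iSup_comp (g := fun n : ℤ => (A.gr n).prod (A.gr n))

/-- The self-extension of the adjoint module attached to `v` of weight one with `v_0 = 0`. -/
noncomputable def VOA.ext (v : V) (hv : v ∈ A.gr 1) (hv0 : ∀ w, A.Y v 0 w = 0) (N : ℤ)
    (hneg : ∀ n : ℤ, n < N → A.gr n = ⊥) : AdmissibleModule A (V × V) where
  Y := A.EY v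
  gr n := (A.gr (n + N)).prod (A.gr (n + N))
  trunc u p := by
    obtain ⟨N, hN⟩ := A.EY_trunc v u p
    exact ⟨N, hN⟩
  vacuum n p := by
    rw [A.EY_apply, A.F_zero_of v A.vac n p.1 (fun k => A.creation v k (by positivity)),
      A.vacuum, A.vacuum]
    split_ifs
    · simp
    · simp
  jacobi u w p l m n := A.EY_jacobi v hv0 u w p l m n
  internal := A.shift_internal N
  nonneg n hn := by
    rw [hneg (n + N) (by omega)]
    simp
  graded k m i u p hu hp := by
    obtain ⟨hp1, hp2⟩ := hp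
    have e : i + k - m - 1 + N = i + N + k - m - 1 := by ring
    rw [e]
    exact ⟨A.graded k m (i + N) u p.1 hu hp1,
      add_mem (A.graded k m (i + N) u p.2 hu hp2) (A.F_graded v hv k m (i + N) u p.1 hu hp1)⟩

end Pool.Agent.VOAut
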